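import Mathlib
import Pool.Agent.Lib.MP_11cd85_al.Gsp

section

/-!
# The resolvent of `D† D`
-/

set_option autoImplicit false

open scoped RealInnerProductSpace Topology

namespace Pool.Agent.Lib.MP_11cd85_al

variable {K L : Type} [NormedAddCommGroup K] [InnerProductSpace ℝ K] [CompleteSpace K]
  [NormedAddCommGroup L] [InnerProductSpace ℝ L] [CompleteSpace L]

/-- The operator `D† D + ε`. -/
noncomputable def opA (D : K →L[ℝ] L) (ε : ℝ) : K →L[ℝ] K :=
  ContinuousLinearMap.adjoint D ∘L D + ε • ContinuousLinearMap.id ℝ K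

theorem opA_apply (D : K →L[ℝ] L) (ε : ℝ) (x : K) :
    opA D ε x = ContinuousLinearMap.adjoint D (D x) + ε • x := rfl

theorem inner_opA (D : K →L[ℝ] L) (ε : ℝ) (x y : K) :
    ⟪opA D ε x, y⟫ = ⟪D x, D y⟫ + ε * ⟪x, y⟫ := by
  rw [opA_apply, inner_add_left, ContinuousLinearMap.adjoint_inner_left, real_inner_smul_left]

theorem norm_le_opA (D : K →L[ℝ] L) {ε : ℝ} (hε : 0 < ε) (x : K) : ε * ‖x‖ ≤ ‖opA D ε x‖ := by
  by_cases hx : ‖x‖ = 0
  · rw [hx, mul_zero]
    exact norm_nonneg _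
  · have hx' : 0 < ‖x‖ := lt_of_le_of_ne (norm_nonneg _) (Ne.symm hx)
    refine le_of_mul_le_mul_right ?_ hx'
    have h1 := inner_opA D ε x x
    rw [real_inner_self_eq_norm_sq, real_inner_self_eq_norm_sq] at h1
    have h2 := real_inner_le_norm (opA D ε x) x
    nlinarith [sq_nonneg ‖D x‖]

theorem opA_bijective (D : K →L[ℝ] L) {ε : ℝ} (hε : 0 < ε) : Function.Bijective (opA D ε) := by
  have hinj : Function.Injective (opA D ε) := by
    rw [injective_iff_map_eq_zero]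
    intro x hx
    have h := norm_le_opA D hε x
    rw [hx, norm_zero] at h
    have h2 : ‖x‖ ≤ 0 := by
      by_contra h3
      have := mul_pos hε (not_le.1 h3)
      linarith
    exact norm_le_zero_iff.1 h2
  refine ⟨hinj, ?_⟩
  have hanti : AntilipschitzWith ⟨ε⁻¹, by positivity⟩ (opA D ε) := by
    apply ContinuousLinearMap.antilipschitz_of_bound
    intro x
    change ‖x‖ ≤ ε⁻¹ * ‖opA D ε x‖
    rw [inv_mul_eq_div, le_div_iff₀ hε, mul_comm]
    exact norm_le_opA D hε x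
  have hcl : IsClosed (LinearMap.range (opA D ε).toLinearMap : Set K) :=
    hanti.isClosed_range (opA D ε).uniformContinuous
  have := hcl.completeSpace_coe
  have htop : LinearMap.range (opA D ε).toLinearMap = ⊤ := by
    rw [← Submodule.orthogonal_orthogonal (LinearMap.range (opA D ε).toLinearMap),
      Submodule.eq_top_iff']
    intro v w hw
    have h0 : w = 0 := by
      have h1 : ⟪opA D ε w, w⟫ = 0 := hw _ ⟨w, rfl⟩
      rw [inner_opA, real_inner_self_eq_norm_sq, real_inner_self_eq_norm_sq] at h1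
      have h2 : ε * ‖w‖ ^ 2 = 0 :=
        le_antisymm (by nlinarith [sq_nonneg ‖D w‖]) (by positivity)
      have h3 : ‖w‖ ^ 2 = 0 := by
        rcases mul_eq_zero.1 h2 with h | h
        · exact absurd h hε.ne'
        · exact h
      exact norm_eq_zero.1 (pow_eq_zero_iff (two_ne_zero) |>.1 h3)
    rw [h0, inner_zero_left]
  exact LinearMap.range_eq_top.1 htop

open Classical in
/-- The resolvent `(D† D + ε)⁻¹` (zero for `ε ≤ 0`). -/
noncomputable def rsv (D : K →L[ℝ] L) (ε : ℝ) : K →L[ℝ] K :=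
  if h : 0 < ε then
    (ContinuousLinearEquiv.ofBijective (opA D ε)
      (LinearMap.ker_eq_bot.2 (opA_bijective D h).1)
      (LinearMap.range_eq_top.2 (opA_bijective D h).2)).symm
  else 0

theorem opA_rsv (D : K →L[ℝ] L) {ε : ℝ} (hε : 0 < ε) (x : K) : opA D ε (rsv D ε x) = x := by
  unfold rsv
  rw [dif_pos hε]
  exact ContinuousLinearEquiv.ofBijective_apply_symm_apply (opA D ε)
      (LinearMap.ker_eq_bot.2 (opA_bijective D hε).1)
      (LinearMap.range_eq_top.2 (opA_bijective D hε).2) x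

theorem rsv_opA (D : K →L[ℝ] L) {ε : ℝ} (hε : 0 < ε) (x : K) : rsv D ε (opA D ε x) = x :=
  (opA_bijective D hε).1 (opA_rsv D hε _)

/-- The basic identity for `u = (D† D + ε)⁻¹ x`. -/
theorem rsv_id (D : K →L[ℝ] L) {ε : ℝ} (hε : 0 < ε) (x y : K) :
    ⟪D (rsv D ε x), D y⟫ + ε * ⟪rsv D ε x, y⟫ = ⟪x, y⟫ := by
  rw [← inner_opA, opA_rsv D hε]

theorem norm_rsv_le (D : K →L[ℝ] L) {ε : ℝ} (hε : 0 < ε) (x : K) : ε * ‖rsv D ε x‖ ≤ ‖x‖ := by
  have h := norm_le_opA D hε (rsv D ε x)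
  rwa [opA_rsv D hε] at h

theorem inner_rsv_nonneg (D : K →L[ℝ] L) {ε : ℝ} (hε : 0 < ε) (x : K) :
    0 ≤ ⟪rsv D ε x, x⟫ := by
  have h := rsv_id D hε x (rsv D ε x)
  rw [real_inner_self_eq_norm_sq, real_inner_self_eq_norm_sq] at h
  rw [real_inner_comm, ← h]
  positivity

/-- `‖D (D† D + ε)⁻¹ x‖² ≤ ‖x‖² / ε`. -/
theorem norm_D_rsv (D : K →L[ℝ] L) {ε : ℝ} (hε : 0 < ε) (x : K) :
    ε * ‖D (rsv D ε x)‖ ^ 2 ≤ ‖x‖ ^ 2 := by
  have h := rsv_id D hε x (rsv D ε x)
  rw [real_inner_self_eq_norm_sq, real_inner_self_eq_norm_sq] at h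
  have h1 := real_inner_le_norm x (rsv D ε x)
  have h2 := norm_rsv_le D hε x
  have h3 : ε * (‖x‖ * ‖rsv D ε x‖) ≤ ‖x‖ * ‖x‖ := by
    nlinarith [norm_nonneg x]
  have h4 : 0 ≤ ε * ‖rsv D ε x‖ ^ 2 := by positivity
  have h5 : ε * ‖D (rsv D ε x)‖ ^ 2 ≤ ε * (‖x‖ * ‖rsv D ε x‖) :=
    mul_le_mul_of_nonneg_left (by linarith) hε.le
  rw [pow_two ‖x‖]
  linarith

/-- The operator `Q_ε = D (D† D + ε)⁻¹ D†`. -/
noncomputable def opQ (D : K →L[ℝ] L) (ε : ℝ) : L →L[ℝ] L :=
  D ∘L rsv D ε ∘L ContinuousLinearMap.adjoint D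

theorem opQ_apply (D : K →L[ℝ] L) (ε : ℝ) (y : L) :
    opQ D ε y = D (rsv D ε (ContinuousLinearMap.adjoint D y)) := rfl

/-- `‖D u‖² + ε ‖u‖² = ⟪D u, y⟫` for `u = (D† D + ε)⁻¹ D† y`. -/
theorem opQ_id (D : K →L[ℝ] L) {ε : ℝ} (hε : 0 < ε) (y : L) :
    ‖opQ D ε y‖ ^ 2 + ε * ‖rsv D ε (ContinuousLinearMap.adjoint D y)‖ ^ 2 = ⟪opQ D ε y, y⟫ := by
  have h := rsv_id D hε (ContinuousLinearMap.adjoint D y)
    (rsv D ε (ContinuousLinearMap.adjoint D y))
  rw [real_inner_self_eq_norm_sq, real_inner_self_eq_norm_sq,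
    ContinuousLinearMap.adjoint_inner_left, real_inner_comm] at h
  exact h

theorem norm_opQ_le (D : K →L[ℝ] L) {ε : ℝ} (hε : 0 < ε) (y : L) : ‖opQ D ε y‖ ≤ ‖y‖ := by
  have h := opQ_id D hε y
  have h1 := real_inner_le_norm (opQ D ε y) y
  have h2 : 0 ≤ ε * ‖rsv D ε (ContinuousLinearMap.adjoint D y)‖ ^ 2 := by positivity
  by_contra h3
  rw [not_le] at h3
  nlinarith [norm_nonneg y]

theorem inner_opQ_le (D : K →L[ℝ] L) {ε : ℝ} (hε : 0 < ε) (y : L) :
    ⟪opQ D ε y, y⟫ ≤ ‖y‖ ^ 2 := by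
  have h1 := real_inner_le_norm (opQ D ε y) y
  have h2 := norm_opQ_le D hε y
  nlinarith [norm_nonneg y]

/-- If `D` is injective then `ε (D† D + ε)⁻¹ x → 0`. -/
theorem tendsto_rsv (D : K →L[ℝ] L) (hD : Function.Injective D) (x : K) :
    Filter.Tendsto (fun ε => ε * ‖rsv D ε x‖) (𝓝[>] 0) (𝓝 0) := by
  have hdense : ∀ η : ℝ, 0 < η → ∃ y : L, ‖x - ContinuousLinearMap.adjoint D y‖ < η := by
    intro η hη
    have h1 : (LinearMap.range (ContinuousLinearMap.adjoint D).toLinearMap).topologicalClosure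
        = ⊤ := by
      rw [Submodule.topologicalClosure_eq_top_iff]
      rw [Submodule.eq_bot_iff]
      intro z hz
      apply hD
      rw [map_zero]
      apply ext_inner_right ℝ
      intro y
      rw [inner_zero_left, ← ContinuousLinearMap.adjoint_inner_right, real_inner_comm]
      exact hz _ ⟨y, rfl⟩
    have h2 : x ∈ closure (LinearMap.range (ContinuousLinearMap.adjoint D).toLinearMap : Set K) := by
      rw [← Submodule.topologicalClosure_coe, h1]
      trivial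
    obtain ⟨z, ⟨y, rfl⟩, hz⟩ := Metric.mem_closure_iff.1 h2 η hη
    exact ⟨y, by rw [← dist_eq_norm]; exact hz⟩
  rw [Metric.tendsto_nhds]
  intro η hη
  obtain ⟨y, hy⟩ := hdense (η / 2) (by positivity)
  have hev : ∀ᶠ ε in 𝓝[>] (0 : ℝ), ε * ‖y‖ ^ 2 < η ^ 2 := by
    have h1 : Filter.Tendsto (fun ε : ℝ => ε * ‖y‖ ^ 2) (𝓝[>] 0) (𝓝 (0 * ‖y‖ ^ 2)) :=
      (Filter.tendsto_id.mono_left nhdsWithin_le_nhds).mul_const _
    rw [zero_mul] at h1
    exact h1.eventually (gt_mem_nhds (by positivity))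
  filter_upwards [hev, self_mem_nhdsWithin] with ε h1 hε
  have hε' : 0 < ε := hε
  rw [Real.dist_eq, sub_zero, abs_of_nonneg (by positivity)]
  have h2 : ε * ‖rsv D ε (x - ContinuousLinearMap.adjoint D y)‖ < η / 2 :=
    lt_of_le_of_lt (norm_rsv_le D hε' _) hy
  have h3 : ε * ‖rsv D ε (ContinuousLinearMap.adjoint D y)‖ ≤ η / 2 := by
    have h4 := opQ_id D hε' y
    have h5 := real_inner_le_norm (opQ D ε y) y
    have h6 : ε * ‖rsv D ε (ContinuousLinearMap.adjoint D y)‖ ^ 2 ≤ ‖y‖ ^ 2 / 4 := by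
      nlinarith [sq_nonneg (‖opQ D ε y‖ - ‖y‖ / 2)]
    have h7 : (ε * ‖rsv D ε (ContinuousLinearMap.adjoint D y)‖) ^ 2 ≤ (η / 2) ^ 2 := by
      nlinarith
    exact abs_le_of_sq_le_sq' h7 (by positivity) |>.2
  have h8 : rsv D ε x = rsv D ε (x - ContinuousLinearMap.adjoint D y) +
      rsv D ε (ContinuousLinearMap.adjoint D y) := by
    rw [← map_add, sub_add_cancel]
  rw [h8]
  have h9 := norm_add_le (rsv D ε (x - ContinuousLinearMap.adjoint D y))
    (rsv D ε (ContinuousLinearMap.adjoint D y))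
  nlinarith

/-- `Q_ε y → y` for `y` in the closure of the range of `D`. -/
theorem tendsto_opQ (D : K →L[ℝ] L) {y : L}
    (hy : y ∈ (LinearMap.range D.toLinearMap).topologicalClosure) :
    Filter.Tendsto (fun ε => ‖opQ D ε y - y‖) (𝓝[>] 0) (𝓝 0) := by
  rw [Metric.tendsto_nhds]
  intro η hη
  have hy' : y ∈ closure (LinearMap.range D.toLinearMap : Set L) := by
    rwa [← Submodule.topologicalClosure_coe]
  obtain ⟨_, ⟨x, rfl⟩, hx⟩ := Metric.mem_closure_iff.1 hy' (η / 3) (by positivity)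
  change dist y (D x) < η / 3 at hx
  rw [dist_eq_norm] at hx
  have hev : ∀ᶠ ε in 𝓝[>] (0 : ℝ), ε * ‖x‖ ^ 2 < (η / 3) ^ 2 := by
    have h1 : Filter.Tendsto (fun ε : ℝ => ε * ‖x‖ ^ 2) (𝓝[>] 0) (𝓝 (0 * ‖x‖ ^ 2)) :=
      (Filter.tendsto_id.mono_left nhdsWithin_le_nhds).mul_const _
    rw [zero_mul] at h1
    exact h1.eventually (gt_mem_nhds (by positivity))
  filter_upwards [hev, self_mem_nhdsWithin] with ε h1 hε
  have hε' : 0 < ε := hε
  rw [Real.dist_eq, sub_zero, abs_of_nonneg (norm_nonneg _)]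
  have h2 : opQ D ε (D x) - D x = -D (ε • rsv D ε x) := by
    have h3 : ContinuousLinearMap.adjoint D (D x) = opA D ε x - ε • x := by
      rw [opA_apply, add_sub_cancel_right]
    rw [opQ_apply, h3, map_sub, rsv_opA D hε', map_smul, map_sub]
    abel
  have h4 : ‖D (ε • rsv D ε x)‖ ≤ η / 3 := by
    rw [map_smul, norm_smul, Real.norm_of_nonneg hε'.le]
    have h5 := norm_D_rsv D hε' x
    have h6 : (ε * ‖D (rsv D ε x)‖) ^ 2 ≤ (η / 3) ^ 2 := by nlinarith
    exact abs_le_of_sq_le_sq' h6 (by positivity) |>.2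
  have h7 : opQ D ε y - y = opQ D ε (y - D x) + (opQ D ε (D x) - D x) + (D x - y) := by
    rw [map_sub]
    abel
  have h8 := norm_opQ_le D hε' (y - D x)
  rw [h7, h2]
  calc ‖opQ D ε (y - D x) + -D (ε • rsv D ε x) + (D x - y)‖
      ≤ ‖opQ D ε (y - D x)‖ + ‖-D (ε • rsv D ε x)‖ + ‖D x - y‖ := norm_add₃_le
    _ < η := by
        rw [norm_neg, norm_sub_rev (D x) y]
        linarith

/-- `Q_ε` vanishes on the orthogonal complement of the range. -/
theorem opQ_proj (D : K →L[ℝ] L) (ε : ℝ) (y : L) :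
    opQ D ε ((LinearMap.range D.toLinearMap).topologicalClosure.starProjection y) =
      opQ D ε y := by
  rw [← sub_eq_zero, ← map_sub, opQ_apply]
  have : ContinuousLinearMap.adjoint D
      ((LinearMap.range D.toLinearMap).topologicalClosure.starProjection y - y) = 0 := by
    apply ext_inner_right ℝ
    intro x
    rw [ContinuousLinearMap.adjoint_inner_left, inner_zero_left, ← neg_sub, inner_neg_left,
      neg_eq_zero]
    exact Submodule.starProjection_inner_eq_zero y (D x)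
      (Submodule.le_topologicalClosure _ ⟨x, rfl⟩)
  rw [this, map_zero, map_zero]

end Pool.Agent.Lib.MP_11cd85_al
end

section

/-!
# Rank and dimension
-/

set_option autoImplicit false
set_option linter.unusedSectionVars false

open scoped RealInnerProductSpace Topology

namespace Pool.Agent.Lib.MP_11cd85_al

variable {G S T K L : Type} [Group G] [NormedAddCommGroup K] [InnerProductSpace ℝ K]
  [CompleteSpace K] [NormedAddCommGroup L] [InnerProductSpace ℝ L] [CompleteSpace L]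
  {U : GSp G S K} {V : GSp G T L} {D : K →L[ℝ] L}

/-- The closure of the range. -/
abbrev Bcl (D : K →L[ℝ] L) : Submodule ℝ L := (LinearMap.range D.toLinearMap).topologicalClosure

theorem mem_Bcl (D : K →L[ℝ] L) (x : K) : D x ∈ Bcl D :=
  Submodule.le_topologicalClosure _ ⟨x, rfl⟩

theorem rsv_eqv (hD : GSp.Eqv U V D) {ε : ℝ} (hε : 0 < ε) : GSp.Eqv U U (rsv D ε) := by
  intro h x
  apply (opA_bijective D hε).1
  rw [opA_rsv D hε, opA_apply, hD, hD.adjoint, ← map_smul, ← map_add, ← opA_apply, opA_rsv D hε]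

theorem opQ_eqv (hD : GSp.Eqv U V D) {ε : ℝ} (hε : 0 < ε) : GSp.Eqv V V (opQ D ε) :=
  (hD.adjoint.comp (rsv_eqv hD hε)).comp hD

/-- The closure of the range is invariant. -/
theorem Bcl_invariant (hD : GSp.Eqv U V D) (g : G) {y : L} (hy : y ∈ Bcl D) :
    V.R g y ∈ Bcl D := by
  have h1 : y ∈ closure (LinearMap.range D.toLinearMap : Set L) := by
    rwa [← Submodule.topologicalClosure_coe]
  have h2 : V.R g y ∈ closure (LinearMap.range D.toLinearMap : Set L) := by
    refine map_mem_closure (V.R g).continuous h1 ?_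
    rintro _ ⟨x, rfl⟩
    exact ⟨U.R g x, hD g x⟩
  rwa [← Submodule.topologicalClosure_coe] at h2

/-- The trace of `Q_ε`. -/
theorem trace_opQ [Fintype S] [Fintype T] (hD : GSp.Eqv U V D) {ε : ℝ} (hε : 0 < ε) :
    ∑ t, ⟪opQ D ε (V.e t), V.e t⟫ =
      Fintype.card S - ε * ∑ s, ⟪rsv D ε (U.e s), U.e s⟫ := by
  have h1 := GSp.trace_comm U V hD (hD.adjoint.comp (rsv_eqv hD hε))
  have h2 : ∀ s, ⟪(rsv D ε ∘L ContinuousLinearMap.adjoint D) (D (U.e s)), U.e s⟫ =
      1 - ε * ⟪rsv D ε (U.e s), U.e s⟫ := by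
    intro s
    have h3 : (rsv D ε ∘L ContinuousLinearMap.adjoint D) (D (U.e s)) =
        U.e s - ε • rsv D ε (U.e s) := by
      have h4 : ContinuousLinearMap.adjoint D (D (U.e s)) = opA D ε (U.e s) - ε • U.e s := by
        rw [opA_apply, add_sub_cancel_right]
      rw [ContinuousLinearMap.comp_apply, h4, map_sub, rsv_opA D hε, map_smul]
    rw [h3, inner_sub_left, real_inner_self_eq_norm_sq, U.norm_e, real_inner_smul_left, one_pow]
  have h5 : ∑ t, ⟪opQ D ε (V.e t), V.e t⟫ =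
      ∑ s, ⟪(rsv D ε ∘L ContinuousLinearMap.adjoint D) (D (U.e s)), U.e s⟫ := h1
  rw [h5, Finset.sum_congr rfl (fun s _ => h2 s), Finset.sum_sub_distrib, Finset.sum_const,
    Finset.card_univ, nsmul_eq_mul, mul_one, ← Finset.mul_sum]

theorem inner_opQ_le_proj (D : K →L[ℝ] L) {ε : ℝ} (hε : 0 < ε) (y : L) :
    ⟪opQ D ε y, y⟫ ≤ ‖(Bcl D).starProjection y‖ ^ 2 := by
  have h1 : ⟪opQ D ε y, y⟫ = ⟪opQ D ε ((Bcl D).starProjection y), (Bcl D).starProjection y⟫ := by
    rw [opQ_proj]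
    have h2 : opQ D ε y ∈ Bcl D := mem_Bcl D _
    have h3 := Submodule.starProjection_inner_eq_zero (K := Bcl D) y (opQ D ε y) h2
    rw [real_inner_comm, inner_sub_right] at h3
    linarith
  rw [h1]
  exact inner_opQ_le D hε _

/-- **Injective operators have full rank**. -/
theorem card_le_dim [Fintype S] [Fintype T] (hD : GSp.Eqv U V D)
    (hinj : Function.Injective D) :
    (Fintype.card S : ℝ) ≤ ∑ t, ‖(Bcl D).starProjection (V.e t)‖ ^ 2 := by
  have h1 : ∀ ε : ℝ, 0 < ε → (Fintype.card S : ℝ) - ∑ s, ε * ‖rsv D ε (U.e s)‖ ≤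
      ∑ t, ‖(Bcl D).starProjection (V.e t)‖ ^ 2 := by
    intro ε hε
    have h2 := trace_opQ hD hε
    have h3 : ∑ t, ⟪opQ D ε (V.e t), V.e t⟫ ≤ ∑ t, ‖(Bcl D).starProjection (V.e t)‖ ^ 2 :=
      Finset.sum_le_sum fun t _ => inner_opQ_le_proj D hε _
    have h4 : ε * ∑ s, ⟪rsv D ε (U.e s), U.e s⟫ ≤ ∑ s, ε * ‖rsv D ε (U.e s)‖ := by
      rw [Finset.mul_sum]
      refine Finset.sum_le_sum fun s _ => mul_le_mul_of_nonneg_left ?_ hε.le
      have h5 := real_inner_le_norm (rsv D ε (U.e s)) (U.e s)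
      rwa [U.norm_e, mul_one] at h5
    linarith
  have h2 : Filter.Tendsto (fun ε : ℝ => (Fintype.card S : ℝ) - ∑ s, ε * ‖rsv D ε (U.e s)‖)
      (𝓝[>] 0) (𝓝 ((Fintype.card S : ℝ) - ∑ _s : S, 0)) :=
    tendsto_const_nhds.sub (tendsto_finsetSum _ fun s _ => tendsto_rsv D hinj _)
  rw [Finset.sum_const_zero, sub_zero] at h2
  refine le_of_tendsto h2 ?_
  filter_upwards [self_mem_nhdsWithin] with ε hε
  exact h1 ε hε

/-- **The rank is at most the dimension of the source**. -/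
theorem dim_le_card [Fintype S] [Fintype T] (hD : GSp.Eqv U V D) :
    ∑ t, ‖(Bcl D).starProjection (V.e t)‖ ^ 2 ≤ (Fintype.card S : ℝ) := by
  have h1 : ∀ ε : ℝ, 0 < ε → ∑ t, ⟪opQ D ε (V.e t), V.e t⟫ ≤ (Fintype.card S : ℝ) := by
    intro ε hε
    rw [trace_opQ hD hε]
    have h2 : 0 ≤ ε * ∑ s, ⟪rsv D ε (U.e s), U.e s⟫ :=
      mul_nonneg hε.le (Finset.sum_nonneg fun s _ => inner_rsv_nonneg D hε _)
    linarith
  have h2 : ∀ t, Filter.Tendsto (fun ε : ℝ => ⟪opQ D ε (V.e t), V.e t⟫) (𝓝[>] 0)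
      (𝓝 (‖(Bcl D).starProjection (V.e t)‖ ^ 2)) := by
    intro t
    have hmem : (Bcl D).starProjection (V.e t) ∈ Bcl D := Submodule.starProjection_apply_mem _ _
    have h3 := tendsto_opQ D hmem
    simp only [opQ_proj] at h3
    have h4 : Filter.Tendsto (fun ε => opQ D ε (V.e t)) (𝓝[>] 0)
        (𝓝 ((Bcl D).starProjection (V.e t))) :=
      tendsto_iff_norm_sub_tendsto_zero.2 h3
    have h5 : Filter.Tendsto (fun ε => ⟪opQ D ε (V.e t), V.e t⟫) (𝓝[>] 0)
        (𝓝 ⟪(Bcl D).starProjection (V.e t), V.e t⟫) := h4.inner tendsto_const_nhds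
    have h6 : ⟪(Bcl D).starProjection (V.e t), V.e t⟫ =
        ‖(Bcl D).starProjection (V.e t)‖ ^ 2 := by
      have h7 := Submodule.starProjection_inner_eq_zero (K := Bcl D) (V.e t) _ hmem
      rw [inner_sub_left, real_inner_comm, real_inner_self_eq_norm_sq] at h7
      linarith
    rwa [h6] at h5
  have h3 := tendsto_finsetSum (Finset.univ : Finset T) fun t _ => h2 t
  refine le_of_tendsto h3 ?_
  filter_upwards [self_mem_nhdsWithin] with ε hε
  exact h1 ε hε

/-- A closed invariant subspace with vanishing dimension is zero. -/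
theorem eq_bot_of_proj (V : GSp G T L) (E : Submodule ℝ L) [E.HasOrthogonalProjection]
    (hE : ∀ g, ∀ x ∈ E, V.R g x ∈ E) (h : ∀ t, E.starProjection (V.e t) = 0) : E = ⊥ := by
  rw [Submodule.eq_bot_iff]
  intro x hx
  have h1 : ∀ p : T × G, ⟪V.b p, x⟫ = 0 := by
    rintro ⟨t, g⟩
    rw [V.b_eq, V.inner_R]
    have h2 := hE g⁻¹ x hx
    have h3 := Submodule.starProjection_inner_eq_zero (K := E) (V.e t) _ h2
    rwa [h t, sub_zero] at h3
  have h2 : V.b.repr x = 0 := by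
    apply lp.ext
    funext p
    rw [V.b.repr_apply_apply, h1 p]
    rfl
  exact (LinearIsometryEquiv.map_eq_zero_iff _).1 h2

/-- **The kernel of a map on `B`**: a closed invariant subspace of the closure of the range of `D`
which contains no `D x`, `x ≠ 0`, is zero. -/
theorem eq_bot_of_inj [Fintype S] [Fintype T] (hD : GSp.Eqv U V D) (E : Submodule ℝ L)
    (hcl : IsClosed (E : Set L)) (hE : ∀ g, ∀ x ∈ E, V.R g x ∈ E) (hle : E ≤ Bcl D)
    (h : ∀ x, D x ∈ E → x = 0) : E = ⊥ := by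
  have hcomp : CompleteSpace E := hcl.completeSpace_coe
  obtain ⟨P, hP⟩ : ∃ P : L →L[ℝ] L, P = E.starProjection := ⟨_, rfl⟩
  have hPmem : ∀ y, P y ∈ E := fun y => by
    rw [hP]
    exact Submodule.starProjection_apply_mem _ _
  have hPorth : ∀ y, ∀ z ∈ E, ⟪y - P y, z⟫ = 0 := fun y z hz => by
    rw [hP]
    exact Submodule.starProjection_inner_eq_zero y z hz
  -- `P` commutes with the action
  have hPeqv : GSp.Eqv V V P := by
    intro g y
    have h1 : V.R g (P y) ∈ E := hE g _ (hPmem y)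
    have h2 : ∀ z ∈ E, ⟪V.R g y - V.R g (P y), z⟫ = 0 := by
      intro z hz
      rw [← map_sub, V.inner_R]
      exact hPorth y _ (hE g⁻¹ z hz)
    have h3 : P (V.R g y) - V.R g (P y) ∈ E := E.sub_mem (hPmem _) h1
    have h4 := hPorth (V.R g y) _ h3
    have h5 := h2 _ h3
    have h6 : ⟪P (V.R g y) - V.R g (P y), P (V.R g y) - V.R g (P y)⟫ = 0 := by
      have h7 : P (V.R g y) - V.R g (P y) =
          (V.R g y - V.R g (P y)) - (V.R g y - P (V.R g y)) := by abel
      calc ⟪P (V.R g y) - V.R g (P y), P (V.R g y) - V.R g (P y)⟫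
          = ⟪(V.R g y - V.R g (P y)) - (V.R g y - P (V.R g y)),
              P (V.R g y) - V.R g (P y)⟫ := by rw [← h7]
        _ = 0 := by rw [inner_sub_left, h5, h4, sub_zero]
    exact sub_eq_zero.1 (inner_self_eq_zero.1 h6)
  obtain ⟨D', hD'⟩ : ∃ D' : K →L[ℝ] L, D' = D - P ∘L D := ⟨_, rfl⟩
  have hD'a : ∀ x, D' x = D x - P (D x) := by
    intro x
    rw [hD']
    rfl
  have hD'eqv : GSp.Eqv U V D' := by
    intro g x
    rw [hD'a, hD'a, hD, hPeqv, map_sub]
  have hD'inj : Function.Injective D' := by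
    rw [injective_iff_map_eq_zero]
    intro x hx
    apply h
    rw [hD'a, sub_eq_zero] at hx
    rw [hx]
    exact hPmem _
  have hB'B : Bcl D' ≤ Bcl D := by
    apply Submodule.topologicalClosure_minimal
    · rintro _ ⟨x, rfl⟩
      change D' x ∈ Bcl D
      rw [hD'a]
      exact Submodule.sub_mem _ (mem_Bcl D x) (hle (hPmem _))
    · exact Submodule.isClosed_topologicalClosure _
  have hB'E : ∀ y ∈ Bcl D', ∀ z ∈ E, ⟪y, z⟫ = 0 := by
    intro y hy z hz
    have h1 : Bcl D' ≤ (ℝ ∙ z)ᗮ := by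
      apply Submodule.topologicalClosure_minimal
      · rintro _ ⟨x, rfl⟩
        change D' x ∈ (ℝ ∙ z)ᗮ
        rw [Submodule.mem_orthogonal_singleton_iff_inner_left, hD'a]
        exact hPorth _ z hz
      · exact Submodule.isClosed_orthogonal _
    exact Submodule.mem_orthogonal_singleton_iff_inner_left.1 (h1 hy)
  have hkey : ∀ y, ‖(Bcl D').starProjection y‖ ^ 2 + ‖P y‖ ^ 2 ≤
      ‖(Bcl D).starProjection y‖ ^ 2 := by
    intro y
    obtain ⟨a, ha⟩ : ∃ a, a = (Bcl D').starProjection y := ⟨_, rfl⟩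
    obtain ⟨c, hc⟩ : ∃ c, c = (Bcl D).starProjection y := ⟨_, rfl⟩
    have ham : a ∈ Bcl D' := by
      rw [ha]
      exact Submodule.starProjection_apply_mem _ _
    have h1 : ⟪y - a, a⟫ = 0 := by
      have := Submodule.starProjection_inner_eq_zero (K := Bcl D') y a ham
      rwa [← ha] at this
    have h2 : ⟪y - c, a⟫ = 0 := by
      have := Submodule.starProjection_inner_eq_zero (K := Bcl D) y a (hB'B ham)
      rwa [← hc] at this
    have h3 : ⟪y - P y, P y⟫ = 0 := hPorth y _ (hPmem y)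
    have h4 : ⟪y - c, P y⟫ = 0 := by
      have := Submodule.starProjection_inner_eq_zero (K := Bcl D) y (P y) (hle (hPmem y))
      rwa [← hc] at this
    have h5 : ⟪a, P y⟫ = 0 := hB'E a ham _ (hPmem y)
    rw [← ha, ← hc]
    -- `0 ≤ ‖c - a - P y‖²`
    have h6 : 0 ≤ ‖c - (a + P y)‖ ^ 2 := sq_nonneg _
    rw [norm_sub_sq_real, inner_add_right] at h6
    have h7 : ‖a + P y‖ ^ 2 = ‖a‖ ^ 2 + ‖P y‖ ^ 2 := by
      rw [norm_add_sq_real, h5, mul_zero, add_zero]
    have h8 : ⟪c, a⟫ = ‖a‖ ^ 2 := by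
      rw [inner_sub_left] at h1 h2
      rw [real_inner_self_eq_norm_sq] at h1
      linarith
    have h9 : ⟪c, P y⟫ = ‖P y‖ ^ 2 := by
      rw [inner_sub_left] at h3 h4
      rw [real_inner_self_eq_norm_sq] at h3
      linarith
    rw [h7, h8, h9] at h6
    linarith
  have h1 := card_le_dim hD'eqv hD'inj
  have h2 := dim_le_card hD
  have h3 : ∑ t, ‖P (V.e t)‖ ^ 2 ≤ 0 := by
    have h4 : ∑ t, (‖(Bcl D').starProjection (V.e t)‖ ^ 2 + ‖P (V.e t)‖ ^ 2) ≤
        ∑ t, ‖(Bcl D).starProjection (V.e t)‖ ^ 2 :=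
      Finset.sum_le_sum fun t _ => hkey _
    rw [Finset.sum_add_distrib] at h4
    linarith
  refine eq_bot_of_proj V E hE fun t => ?_
  have h4 : ‖P (V.e t)‖ ^ 2 ≤ 0 :=
    le_trans (Finset.single_le_sum (f := fun t => ‖P (V.e t)‖ ^ 2)
      (fun _ _ => sq_nonneg _) (Finset.mem_univ t)) h3
  have h5 : ‖P (V.e t)‖ = 0 := by
    have := sq_nonneg ‖P (V.e t)‖
    exact pow_eq_zero_iff (two_ne_zero) |>.1 (le_antisymm h4 this)
  rw [← hP]
  exact norm_eq_zero.1 h5

/-- **An injective operator between spaces of the same dimension has dense range**. -/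
theorem Bcl_eq_top [Fintype S] [Fintype T] (hD : GSp.Eqv U V D)
    (hinj : Function.Injective D) (hcard : Fintype.card T ≤ Fintype.card S) : Bcl D = ⊤ := by
  have h1 := card_le_dim hD hinj
  have hle : ∀ t, ‖(Bcl D).starProjection (V.e t)‖ ^ 2 ≤ 1 := by
    intro t
    have h2 : ‖(Bcl D).starProjection (V.e t)‖ ≤ ‖V.e t‖ := by
      have := (Bcl D).starProjection.le_opNorm (V.e t)
      refine this.trans ?_
      have h3 := Submodule.starProjection_norm_le (Bcl D)
      nlinarith [norm_nonneg (V.e t)]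
    rw [V.norm_e] at h2
    exact pow_le_one₀ (norm_nonneg _) h2
  have heq : ∀ t, ‖(Bcl D).starProjection (V.e t)‖ ^ 2 = 1 := by
    by_contra hcon
    push Not at hcon
    obtain ⟨t, ht⟩ := hcon
    have h2 : ∑ t, ‖(Bcl D).starProjection (V.e t)‖ ^ 2 < ∑ _t : T, (1 : ℝ) :=
      Finset.sum_lt_sum (fun t _ => hle t) ⟨t, Finset.mem_univ t, lt_of_le_of_ne (hle t) ht⟩
    rw [Finset.sum_const, Finset.card_univ, nsmul_eq_mul, mul_one] at h2
    have h3 : (Fintype.card T : ℝ) ≤ Fintype.card S := by exact_mod_cast hcard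
    linarith
  have hmem : ∀ t, V.e t ∈ Bcl D := by
    intro t
    have h2 := heq t
    have h3 : ‖V.e t - (Bcl D).starProjection (V.e t)‖ ^ 2 = 0 := by
      have h4 := Submodule.starProjection_inner_eq_zero (K := Bcl D) (V.e t) _
        (Submodule.starProjection_apply_mem (Bcl D) (V.e t))
      rw [inner_sub_left, real_inner_self_eq_norm_sq] at h4
      rw [norm_sub_sq_real, V.norm_e]
      linarith
    have h4 : V.e t - (Bcl D).starProjection (V.e t) = 0 :=
      norm_eq_zero.1 (pow_eq_zero_iff (two_ne_zero) |>.1 h3)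
    rw [sub_eq_zero] at h4
    rw [h4]
    exact Submodule.starProjection_apply_mem _ _
  have hmem' : ∀ p, V.b p ∈ Bcl D := by
    rintro ⟨t, g⟩
    rw [V.b_eq]
    exact Bcl_invariant hD g (hmem t)
  rw [eq_top_iff, ← V.b.dense_span]
  apply Submodule.topologicalClosure_minimal
  · rw [Submodule.span_le]
    rintro _ ⟨p, rfl⟩
    exact hmem' p
  · exact Submodule.isClosed_topologicalClosure _

end Pool.Agent.Lib.MP_11cd85_al
end
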