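import Pool.Agent.Lib.MP_11cd85_al.Cut.Basic

section

/-!
# Minimal cuts
-/

set_option autoImplicit false

namespace Pool.Agent.Lib.MP_11cd85_al.Cut

variable {G : Type} [Group G]

/-- Non-trivial cuts. -/
structure Nt (H : Subgroup G) (x : G) (E : Set G) : Prop where
  inv : Inv H E
  fin : (bd x E).Finite
  ne : E.Nonempty
  nec : Eᶜ.Nonempty

/-- Non-trivial cuts of size `k`. -/
structure Mn (H : Subgroup G) (x : G) (k : ℕ) (E : Set G) : Prop extends Nt H x E where
  card : (bd x E).ncard = k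

/-- The hypotheses: `G` is generated by `H` and `x`, and `k` is the minimal size of a non-trivial
cut. -/
structure Hyp (H : Subgroup G) (x : G) (k : ℕ) : Prop where
  gen : Subgroup.closure ((H : Set G) ∪ {x}) = ⊤
  min : ∀ E : Set G, Nt H x E → k ≤ (bd x E).ncard
  pos : 0 < k

variable {H : Subgroup G} {x : G} {k : ℕ}

theorem Nt.compl {E : Set G} (h : Nt H x E) : Nt H x Eᶜ :=
  ⟨inv_compl h.inv, by rw [bd_compl]; exact h.fin, h.nec, by rw [compl_compl]; exact h.ne⟩

theorem Nt.tr {E : Set G} (h : Nt H x E) (t : G) : Nt H x (tr t E) :=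
  ⟨inv_tr h.inv t, by rw [bd_tr]; exact finite_tr h.fin, tr_nonempty.2 h.ne, by
    rw [← tr_compl]; exact tr_nonempty.2 h.nec⟩

theorem Mn.compl {E : Set G} (h : Mn H x k E) : Mn H x k Eᶜ :=
  ⟨h.toNt.compl, by rw [bd_compl]; exact h.card⟩

theorem Mn.tr {E : Set G} (h : Mn H x k E) (t : G) : Mn H x k (tr t E) :=
  ⟨h.toNt.tr t, by rw [bd_tr, ncard_tr]; exact h.card⟩

theorem Nt.bd_nonempty {E : Set G} (hgen : Subgroup.closure ((H : Set G) ∪ {x}) = ⊤)
    (h : Nt H x E) : (bd x E).Nonempty := by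
  rw [Set.nonempty_iff_ne_empty]
  intro h0
  rcases trivial_of_bd hgen h.inv h0 with h1 | h1
  · exact h.ne.ne_empty h1
  · have := h.nec
    rw [h1, Set.compl_univ] at this
    exact Set.not_nonempty_empty this

/-- There is a minimal size. -/
theorem exists_hyp (hgen : Subgroup.closure ((H : Set G) ∪ {x}) = ⊤) {E : Set G}
    (hE : Nt H x E) : ∃ k, Hyp H x k ∧ ∃ F, Mn H x k F := by
  classical
  have hex : ∃ k, ∃ F, Nt H x F ∧ (bd x F).ncard = k := ⟨_, E, hE, rfl⟩
  obtain ⟨F, hF, hFk⟩ := Nat.find_spec hex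
  refine ⟨Nat.find hex, ⟨hgen, fun F' hF' => Nat.find_min' hex ⟨F', hF', rfl⟩, ?_⟩, F, hF, hFk⟩
  rw [← hFk, Set.ncard_pos hF.fin]
  exact hF.bd_nonempty hgen

/-- Corners of minimal cuts. -/
theorem Mn.inter {E F : Set G} (hyp : Hyp H x k) (hE : Mn H x k E) (hF : Mn H x k F)
    (h1 : (E ∩ F).Nonempty) (h2 : (Eᶜ ∩ Fᶜ).Nonempty) : Mn H x k (E ∩ F) ∧ Mn H x k (E ∪ F) := by
  obtain ⟨h3, h4, h5⟩ := ncard_bd_inter_add x E F hE.fin hF.fin
  have h6 : Nt H x (E ∩ F) := by
    refine ⟨inv_inter hE.inv hF.inv, h3, h1, ?_⟩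
    obtain ⟨y, hy⟩ := h2
    exact ⟨y, fun hy' => hy.1 hy'.1⟩
  have h7 : Nt H x (E ∪ F) := by
    refine ⟨inv_union hE.inv hF.inv, h4, h1.mono ?_, ?_⟩
    · exact Set.inter_subset_left.trans Set.subset_union_left
    · rw [Set.compl_union]
      exact h2
  have h8 := hyp.min _ h6
  have h9 := hyp.min _ h7
  rw [hE.card, hF.card] at h5
  exact ⟨⟨h6, by omega⟩, ⟨h7, by omega⟩⟩

/-- A cut with small boundary is trivial. -/
theorem trivial_of_small (hyp : Hyp H x k) {C : Set G} (hC : Inv H C) {S : Set G} (hS : S.Finite)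
    (hk : S.ncard < k) (hb : bd x C ⊆ S) : C = ∅ ∨ C = Set.univ := by
  by_contra hcon
  push Not at hcon
  have h1 : Nt H x C := by
    refine ⟨hC, hS.subset hb, Set.nonempty_iff_ne_empty.2 ?_, Set.nonempty_compl.2 hcon.2⟩
    exact hcon.1.ne_empty
  have h2 := hyp.min C h1
  have h3 := Set.ncard_le_ncard hb hS
  omega

theorem eq_of_bd {E F : Set G} (hgen : Subgroup.closure ((H : Set G) ∪ {x}) = ⊤)
    (hE : Inv H E) (hF : Inv H F) (hb : bd x E = bd x F) {u : G} (hu : u ∈ E) (hu' : u ∈ F) :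
    E = F := by
  have h1 : Inv H {g | g ∈ E ↔ g ∈ F} := fun g h hh => iff_congr (hE g h hh) (hF g h hh)
  have h2 : bd x {g | g ∈ E ↔ g ∈ F} = ∅ := by
    ext g
    have h3 : g ∈ bd x E ↔ g ∈ bd x F := by rw [hb]
    simp only [mem_bd, Set.mem_ofPred_eq, Set.mem_empty_iff_false, iff_false] at h3 ⊢
    tauto
  rcases trivial_of_bd hgen h1 h2 with h3 | h3
  · exfalso
    have : u ∈ {g | g ∈ E ↔ g ∈ F} := ⟨fun _ => hu', fun _ => hu⟩
    rw [h3] at this
    exact this
  · ext g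
    have : g ∈ {g | g ∈ E ↔ g ∈ F} := by rw [h3]; exact Set.mem_univ _
    exact this

theorem finite_aux (hyp : Hyp H x k) (u : G) : ∀ (j : ℕ) (S : Set G), S.Finite → S.ncard + j = k →
    ∀ v, {F : Set G | Mn H x k F ∧ S ⊆ bd x F ∧ u ∈ F ∧ v ∉ F}.Finite := by
  intro j
  induction j with
  | zero =>
    intro S hS hk v
    apply Set.Subsingleton.finite
    rintro E ⟨hE, hSE, huE, _⟩ F ⟨hF, hSF, huF, _⟩
    have h1 : S = bd x E := Set.eq_of_subset_of_ncard_le hSE (by rw [hE.card]; omega) hE.fin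
    have h2 : S = bd x F := Set.eq_of_subset_of_ncard_le hSF (by rw [hF.card]; omega) hF.fin
    exact eq_of_bd hyp.gen hE.inv hF.inv (h1.symm.trans h2) huE huF
  | succ j ih =>
    intro S hS hk v
    have hC : Inv H {v | {F : Set G | Mn H x k F ∧ S ⊆ bd x F ∧ u ∈ F ∧ v ∉ F}.Finite} := by
      intro g h hh
      have h1 : {F : Set G | Mn H x k F ∧ S ⊆ bd x F ∧ u ∈ F ∧ g ∉ F} =
          {F : Set G | Mn H x k F ∧ S ⊆ bd x F ∧ u ∈ F ∧ g * h ∉ F} := by
        ext F
        simp only [Set.mem_ofPred_eq]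
        refine and_congr_right fun hF => ?_
        rw [hF.inv g h hh]
      simp only [Set.mem_ofPred_eq]
      rw [h1]
    have hb : bd x {v | {F : Set G | Mn H x k F ∧ S ⊆ bd x F ∧ u ∈ F ∧ v ∉ F}.Finite} ⊆ S := by
      intro g hg
      by_contra hgS
      have h1 : (insert g S).ncard + j = k := by
        rw [Set.ncard_insert_of_notMem hgS hS]
        omega
      have h2 := ih (insert g S) (hS.insert g) h1
      apply hg
      simp only [Set.mem_ofPred_eq]
      constructor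
      · intro h3
        refine (h3.union (h2 (g * x))).subset ?_
        rintro F ⟨hF, hSF, huF, hgF⟩
        by_cases h4 : g ∈ F
        · right
          refine ⟨hF, ?_, huF, hgF⟩
          rintro y (rfl | hy)
          · exact fun h5 => hgF (h5.1 h4)
          · exact hSF hy
        · left
          exact ⟨hF, hSF, huF, h4⟩
      · intro h3
        refine (h3.union (h2 g)).subset ?_
        rintro F ⟨hF, hSF, huF, hgF⟩
        by_cases h4 : g * x ∈ F
        · right
          refine ⟨hF, ?_, huF, hgF⟩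
          rintro y (rfl | hy)
          · exact fun h5 => hgF (h5.2 h4)
          · exact hSF hy
        · left
          exact ⟨hF, hSF, huF, h4⟩
    rcases trivial_of_small hyp hC hS (by omega) hb with h1 | h1
    · exfalso
      have h2 : u ∈ {v | {F : Set G | Mn H x k F ∧ S ⊆ bd x F ∧ u ∈ F ∧ v ∉ F}.Finite} := by
        simp only [Set.mem_ofPred_eq]
        convert Set.finite_empty (α := Set G)
        ext F
        simp only [Set.mem_ofPred_eq, Set.mem_empty_iff_false, iff_false]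
        rintro ⟨_, _, h3, h4⟩
        exact h4 h3
      rw [h1] at h2
      exact h2
    · have h2 : v ∈ {v | {F : Set G | Mn H x k F ∧ S ⊆ bd x F ∧ u ∈ F ∧ v ∉ F}.Finite} := by
        rw [h1]
        exact Set.mem_univ _
      exact h2

/-- Only finitely many minimal cuts separate two given elements. -/
theorem finite_sep (hyp : Hyp H x k) (u v : G) : {F : Set G | Mn H x k F ∧ u ∈ F ∧ v ∉ F}.Finite := by
  refine (finite_aux hyp u k ∅ Set.finite_empty (by simp) v).subset ?_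
  rintro F ⟨h1, h2, h3⟩
  exact ⟨h1, Set.empty_subset _, h2, h3⟩

end Pool.Agent.Lib.MP_11cd85_al.Cut
end

section

/-!
# Crossing minimal cuts
-/

set_option autoImplicit false

namespace Pool.Agent.Lib.MP_11cd85_al.Cut

variable {G : Type}

/-- Crossing sets: all four corners are non-empty. -/
def cross (E F : Set G) : Prop :=
  (E ∩ F).Nonempty ∧ (E ∩ Fᶜ).Nonempty ∧ (Eᶜ ∩ F).Nonempty ∧ (Eᶜ ∩ Fᶜ).Nonempty

theorem cross_comm {E F : Set G} (h : cross E F) : cross F E := by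
  obtain ⟨h1, h2, h3, h4⟩ := h
  refine ⟨?_, ?_, ?_, ?_⟩
  · rwa [Set.inter_comm]
  · rwa [Set.inter_comm]
  · rwa [Set.inter_comm]
  · rwa [Set.inter_comm]

theorem cross_compl_right {E F : Set G} (h : cross E F) : cross E Fᶜ := by
  obtain ⟨h1, h2, h3, h4⟩ := h
  refine ⟨h2, ?_, h4, ?_⟩
  · rwa [compl_compl]
  · rwa [compl_compl]

theorem not_cross_self (E : Set G) : ¬ cross E E := by
  rintro ⟨_, ⟨y, hy1, hy2⟩, _⟩
  exact hy2 hy1

variable [Group G]

theorem cross_tr {t : G} {E F : Set G} : cross (tr t E) (tr t F) ↔ cross E F := by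
  unfold cross
  rw [← tr_compl, ← tr_compl, ← tr_inter, ← tr_inter, ← tr_inter, ← tr_inter, tr_nonempty,
    tr_nonempty, tr_nonempty, tr_nonempty]

variable {H : Subgroup G} {x : G} {k : ℕ}

theorem aux_V (hyp : Hyp H x k) {E F : Set G} (hE : Mn H x k E) (hF : Mn H x k F)
    (hc : cross E F) : ¬ ∀ g ∈ bd x E, g ∈ F ∧ g * x ∈ F := by
  intro h
  obtain ⟨_, h1, _, h2⟩ := hc
  have h3 : bd x (E ∩ Fᶜ) ⊆ bd x F ∩ E := by
    intro g hg
    have h4 := h g
    simp only [mem_bd, Set.mem_inter_iff, Set.mem_compl_iff] at hg h4 ⊢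
    tauto
  have h5 : bd x (Eᶜ ∩ Fᶜ) ⊆ bd x F ∩ Eᶜ := by
    intro g hg
    have h4 := h g
    simp only [mem_bd, Set.mem_inter_iff, Set.mem_compl_iff] at hg h4 ⊢
    tauto
  have h6 : Nt H x (E ∩ Fᶜ) := by
    refine ⟨inv_inter hE.inv (inv_compl hF.inv), (hF.fin.inter_of_left _).subset h3, h1, ?_⟩
    obtain ⟨y, hy⟩ := h2
    exact ⟨y, fun hy' => hy.1 hy'.1⟩
  have h7 : Nt H x (Eᶜ ∩ Fᶜ) := by
    refine ⟨inv_inter (inv_compl hE.inv) (inv_compl hF.inv),
      (hF.fin.inter_of_left _).subset h5, h2, ?_⟩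
    obtain ⟨y, hy⟩ := h1
    exact ⟨y, fun hy' => hy'.1 hy.1⟩
  have h8 := hyp.min _ h6
  have h9 := hyp.min _ h7
  have h10 : (bd x F ∩ E).ncard + (bd x F ∩ Eᶜ).ncard = (bd x F).ncard := by
    rw [← Set.sdiff_eq]
    exact Set.ncard_inter_add_ncard_sdiff_eq_ncard _ _ hF.fin
  have h11 := Set.ncard_le_ncard h3 (hF.fin.inter_of_left _)
  have h12 := Set.ncard_le_ncard h5 (hF.fin.inter_of_left _)
  have h13 := hF.card
  have h14 := hyp.pos
  omega

/-- Only finitely many minimal cuts cross a given one. -/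
theorem finite_cross (hyp : Hyp H x k) {E : Set G} (hE : Mn H x k E) :
    {F : Set G | Mn H x k F ∧ cross E F}.Finite := by
  classical
  let V : Set G := bd x E ∪ (fun g => g * x) '' bd x E
  have hV : V.Finite := hE.fin.union (hE.fin.image _)
  have h1 : (⋃ u ∈ V, ⋃ v ∈ V, {F : Set G | Mn H x k F ∧ u ∈ F ∧ v ∉ F}).Finite := by
    apply hV.biUnion
    intro u _
    apply hV.biUnion
    intro v _
    exact finite_sep hyp u v
  refine h1.subset ?_
  rintro F ⟨hF, hc⟩
  have h2 : ∃ u ∈ V, u ∈ F := by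
    by_contra hcon
    push Not at hcon
    apply aux_V hyp hE hF.compl (cross_compl_right hc)
    intro g hg
    exact ⟨hcon g (Or.inl hg), hcon _ (Or.inr ⟨g, hg, rfl⟩)⟩
  have h3 : ∃ v ∈ V, v ∉ F := by
    by_contra hcon
    push Not at hcon
    apply aux_V hyp hE hF hc
    intro g hg
    exact ⟨hcon g (Or.inl hg), hcon _ (Or.inr ⟨g, hg, rfl⟩)⟩
  obtain ⟨u, hu, huF⟩ := h2
  obtain ⟨v, hv, hvF⟩ := h3
  simp only [Set.mem_iUnion]
  exact ⟨u, hu, v, hv, hF, huF, hvF⟩

/-- The minimal cuts that cross `E`. -/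
def Cr (H : Subgroup G) (x : G) (k : ℕ) (E : Set G) : Set (Set G) :=
  {F : Set G | Mn H x k F ∧ cross E F}

omit [Group G] in
theorem aux_a {E F X : Set G} (h0 : (Eᶜ ∩ Fᶜ).Nonempty) (h : cross (E ∩ F) X) :
    cross E X ∨ cross F X := by
  by_contra hcon
  push Not at hcon
  obtain ⟨hE, hF⟩ := hcon
  obtain ⟨⟨a, ha1, ha2⟩, ⟨b, hb1, hb2⟩, ⟨c, hc1, hc2⟩, ⟨d, hd1, hd2⟩⟩ := h
  obtain ⟨e, he1, he2⟩ := h0
  unfold cross at hE hF
  simp only [Set.Nonempty, Set.mem_inter_iff, Set.mem_compl_iff] at *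
  -- `a ∈ E ∩ F ∩ X`, `b ∈ E ∩ F \ X`, `c ∈ X \ (E ∩ F)`, `d ∉ X`, `d ∉ E ∩ F`, `e ∉ E`, `e ∉ F`
  have hE1 : (∀ y, y ∉ E → y ∉ X) ∨ (∀ y, y ∉ E → y ∈ X) := by
    by_contra h5
    push Not at h5
    obtain ⟨⟨y, hy1, hy2⟩, ⟨z, hz1, hz2⟩⟩ := h5
    exact hE ⟨⟨a, ha1.1, ha2⟩, ⟨b, hb1.1, hb2⟩, ⟨y, hy1, hy2⟩, ⟨z, hz1, hz2⟩⟩
  have hF1 : (∀ y, y ∉ F → y ∉ X) ∨ (∀ y, y ∉ F → y ∈ X) := by
    by_contra h5
    push Not at h5
    obtain ⟨⟨y, hy1, hy2⟩, ⟨z, hz1, hz2⟩⟩ := h5
    exact hF ⟨⟨a, ha1.2, ha2⟩, ⟨b, hb1.2, hb2⟩, ⟨y, hy1, hy2⟩, ⟨z, hz1, hz2⟩⟩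
  rcases hE1 with hE1 | hE1 <;> rcases hF1 with hF1 | hF1
  · by_cases h6 : c ∈ E
    · by_cases h7 : c ∈ F
      · exact hc1 ⟨h6, h7⟩
      · exact hF1 c h7 hc2
    · exact hE1 c h6 hc2
  · exact hE1 e he1 (hF1 e he2)
  · exact hF1 e he2 (hE1 e he1)
  · by_cases h6 : d ∈ E
    · by_cases h7 : d ∈ F
      · exact hd1 ⟨h6, h7⟩
      · exact hd2 (hF1 d h7)
    · exact hd2 (hE1 d h6)

omit [Group G] in
theorem aux_b {E F X : Set G} (h : cross (E ∩ F) X) (h' : cross (Eᶜ ∩ Fᶜ) X) :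
    cross E X ∧ cross F X := by
  obtain ⟨⟨a, ha1, ha2⟩, ⟨b, hb1, hb2⟩, _, _⟩ := h
  obtain ⟨⟨a', ha1', ha2'⟩, ⟨b', hb1', hb2'⟩, _, _⟩ := h'
  exact ⟨⟨⟨a, ha1.1, ha2⟩, ⟨b, hb1.1, hb2⟩, ⟨a', ha1'.1, ha2'⟩, ⟨b', hb1'.1, hb2'⟩⟩,
    ⟨⟨a, ha1.2, ha2⟩, ⟨b, hb1.2, hb2⟩, ⟨a', ha1'.2, ha2'⟩, ⟨b', hb1'.2, hb2'⟩⟩⟩

theorem ncard_Cr_lt (hyp : Hyp H x k) {E F : Set G} (hE : Mn H x k E) (hF : Mn H x k F)
    (hc : cross E F) : (Cr H x k (E ∩ F)).ncard + (Cr H x k (Eᶜ ∩ Fᶜ)).ncard <
      (Cr H x k E).ncard + (Cr H x k F).ncard := by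
  obtain ⟨hM1, hM2⟩ := Mn.inter hyp hE hF hc.1 hc.2.2.2
  have hM3 : Mn H x k (Eᶜ ∩ Fᶜ) := by
    rw [← Set.compl_union]
    exact hM2.compl
  have f1 : (Cr H x k E).Finite := finite_cross hyp hE
  have f2 : (Cr H x k F).Finite := finite_cross hyp hF
  have f3 : (Cr H x k (E ∩ F)).Finite := finite_cross hyp hM1
  have f4 : (Cr H x k (Eᶜ ∩ Fᶜ)).Finite := finite_cross hyp hM3
  have s1 : Cr H x k (E ∩ F) ∪ Cr H x k (Eᶜ ∩ Fᶜ) ⊆ Cr H x k E ∪ Cr H x k F := by
    rintro X (⟨hX, h⟩ | ⟨hX, h⟩)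
    · rcases aux_a hc.2.2.2 h with h1 | h1
      · exact Or.inl ⟨hX, h1⟩
      · exact Or.inr ⟨hX, h1⟩
    · have h0 : (Eᶜᶜ ∩ Fᶜᶜ).Nonempty := by
        rw [compl_compl, compl_compl]
        exact hc.1
      rcases aux_a h0 h with h1 | h1
      · left
        refine ⟨hX, ?_⟩
        have := cross_comm (cross_compl_right (cross_comm h1))
        rwa [compl_compl] at this
      · right
        refine ⟨hX, ?_⟩
        have := cross_comm (cross_compl_right (cross_comm h1))
        rwa [compl_compl] at this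
  have s2 : Cr H x k (E ∩ F) ∩ Cr H x k (Eᶜ ∩ Fᶜ) ⊆ Cr H x k E ∩ Cr H x k F := by
    rintro X ⟨⟨hX, h⟩, ⟨_, h'⟩⟩
    obtain ⟨h1, h2⟩ := aux_b h h'
    exact ⟨⟨hX, h1⟩, ⟨hX, h2⟩⟩
  have s3 : E ∈ Cr H x k E ∪ Cr H x k F := Or.inr ⟨hE, cross_comm hc⟩
  have s4 : E ∉ Cr H x k (E ∩ F) ∪ Cr H x k (Eᶜ ∩ Fᶜ) := by
    rintro (⟨_, h⟩ | ⟨_, h⟩)
    · obtain ⟨y, hy1, hy2⟩ := h.2.1
      exact hy2 hy1.1
    · obtain ⟨y, hy1, hy2⟩ := h.1
      exact hy1.1 hy2
  have s5 : Cr H x k (E ∩ F) ∪ Cr H x k (Eᶜ ∩ Fᶜ) ⊂ Cr H x k E ∪ Cr H x k F :=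
    ⟨s1, fun h => s4 (h s3)⟩
  rw [← Set.ncard_union_add_ncard_inter _ _ f3 f4, ← Set.ncard_union_add_ncard_inter _ _ f1 f2]
  exact add_lt_add_of_lt_of_le (Set.ncard_lt_ncard s5 (f1.union f2))
    (Set.ncard_le_ncard s2 (f1.inter_of_left _))

theorem Cr_tr (t : G) (E : Set G) : Cr H x k (tr t E) = (tr t) '' Cr H x k E := by
  ext F
  constructor
  · rintro ⟨hF, hc⟩
    refine ⟨tr t⁻¹ F, ⟨hF.tr _, ?_⟩, ?_⟩
    · rw [← cross_tr (t := t), ← tr_mul, mul_inv_cancel, tr_one]
      exact hc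
    · rw [← tr_mul, mul_inv_cancel, tr_one]
  · rintro ⟨F', ⟨hF, hc⟩, rfl⟩
    exact ⟨hF.tr t, cross_tr.2 hc⟩

/-- There is a minimal cut nested with all its translates. -/
theorem exists_nested (hyp : Hyp H x k) (hex : ∃ F, Mn H x k F) :
    ∃ E, Mn H x k E ∧ ∀ t, ¬ cross E (tr t E) := by
  classical
  have hex' : ∃ n, ∃ F, Mn H x k F ∧ (Cr H x k F).ncard = n := by
    obtain ⟨F, hF⟩ := hex
    exact ⟨_, F, hF, rfl⟩
  obtain ⟨E, hE, hn⟩ := Nat.find_spec hex'
  have hmin : ∀ F, Mn H x k F → (Cr H x k E).ncard ≤ (Cr H x k F).ncard := by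
    intro F hF
    rw [hn]
    exact Nat.find_min' hex' ⟨F, hF, rfl⟩
  refine ⟨E, hE, fun t hc => ?_⟩
  have h1 : (Cr H x k (tr t E)).ncard = (Cr H x k E).ncard := by
    rw [Cr_tr]
    exact Set.ncard_image_of_injective _ (tr_injective t)
  have h2 := ncard_Cr_lt hyp hE (hE.tr t) hc
  obtain ⟨hM1, hM2⟩ := Mn.inter hyp hE (hE.tr t) hc.1 hc.2.2.2
  have hM3 : Mn H x k (Eᶜ ∩ (tr t E)ᶜ) := by
    rw [← Set.compl_union]
    exact hM2.compl
  have h3 := hmin _ hM1
  have h4 := hmin _ hM3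
  omega

end Pool.Agent.Lib.MP_11cd85_al.Cut
end

section

/-!
# A normalised minimal cut
-/

set_option autoImplicit false

namespace Pool.Agent.Lib.MP_11cd85_al.Cut

variable {G : Type} [Group G]

/-- The properties of the normalised cut. -/
structure Nrm (H : Subgroup G) (E : Set G) : Prop where
  one : (1 : G) ∉ E
  ne : E.Nonempty
  inv : Inv H E
  nest : ∀ t, E ⊆ tr t E ∨ tr t E ⊆ E ∨ E ∩ tr t E = ∅ ∨ E ∪ tr t E = Set.univ
  m1 : ∀ t, (1 : G) ∉ tr t E → E ⊆ tr t E → t = 1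
  m2 : ∀ t, (1 : G) ∈ tr t E → E ∩ tr t E = ∅ → False
  fin : ∀ g, {t | ¬ ((1 : G) ∈ tr t E ↔ g ∈ tr t E)}.Finite

theorem eq_one_of_tr (htf : ∀ (g : G) (n : ℕ), 0 < n → g ^ n = 1 → g = 1) {S : Set G}
    (hS : S.Finite) (hne : S.Nonempty) {t : G} (h : tr t S = S) : t = 1 := by
  obtain ⟨g, hg⟩ := hne
  have h1 : ∀ n : ℕ, (t⁻¹) ^ n * g ∈ S := by
    intro n
    induction n with
    | zero => simpa using hg
    | succ n ih =>
      rw [← h, mem_tr] at ih
      rwa [pow_succ', mul_assoc]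
  have h2 : ¬ Function.Injective (fun n : ℕ => (t⁻¹) ^ n * g) := fun hinj =>
    (Set.infinite_of_injective_forall_mem hinj h1) hS
  rw [Function.Injective] at h2
  push Not at h2
  obtain ⟨a, b, hab, hne⟩ := h2
  have hab' : (t⁻¹) ^ a = (t⁻¹) ^ b := mul_right_cancel hab
  have h3 : t⁻¹ = 1 := by
    rcases lt_or_gt_of_ne hne with hlt | hlt
    · apply htf _ (b - a) (Nat.sub_pos_of_lt hlt)
      rw [pow_sub _ hlt.le, hab', mul_inv_cancel]
    · apply htf _ (a - b) (Nat.sub_pos_of_lt hlt)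
      rw [pow_sub _ hlt.le, hab', mul_inv_cancel]
  exact inv_eq_one.1 h3

omit [Group G] in
theorem nest_of_not_cross {E F : Set G} (h : ¬ cross E F) :
    E ⊆ F ∨ F ⊆ E ∨ E ∩ F = ∅ ∨ E ∪ F = Set.univ := by
  unfold cross at h
  by_cases h1 : (E ∩ F).Nonempty
  · by_cases h2 : (E ∩ Fᶜ).Nonempty
    · by_cases h3 : (Eᶜ ∩ F).Nonempty
      · have h4 : ¬ (Eᶜ ∩ Fᶜ).Nonempty := fun h4 => h ⟨h1, h2, h3, h4⟩
        rw [Set.not_nonempty_iff_eq_empty, ← Set.compl_union, Set.compl_empty_iff] at h4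
        exact Or.inr (Or.inr (Or.inr h4))
      · rw [Set.not_nonempty_iff_eq_empty, Set.inter_comm, ← Set.sdiff_eq,
          Set.sdiff_eq_empty] at h3
        exact Or.inr (Or.inl h3)
    · rw [Set.not_nonempty_iff_eq_empty, ← Set.sdiff_eq, Set.sdiff_eq_empty] at h2
      exact Or.inl h2
  · rw [Set.not_nonempty_iff_eq_empty] at h1
    exact Or.inr (Or.inr (Or.inl h1))

variable {H : Subgroup G} {x : G} {k : ℕ}

theorem exists_nrm (htf : ∀ (g : G) (n : ℕ), 0 < n → g ^ n = 1 → g = 1) (hyp : Hyp H x k)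
    (hex : ∃ F, Mn H x k F) : ∃ E, Nrm H E ∧ Mn H x k E := by
  classical
  obtain ⟨E₀, hE₀, hn₀⟩ := exists_nested hyp hex
  -- the family
  let T : Set (Set G) := {C | ∃ t, C = tr t E₀ ∨ C = (tr t E₀)ᶜ}
  have hT : ∀ C ∈ T, Mn H x k C := by
    rintro C ⟨t, rfl | rfl⟩
    · exact hE₀.tr t
    · exact (hE₀.tr t).compl
  have hTtr : ∀ C ∈ T, ∀ t, tr t C ∈ T := by
    rintro C ⟨s, rfl | rfl⟩ t
    · exact ⟨t * s, Or.inl (tr_mul t s E₀).symm⟩
    · refine ⟨t * s, Or.inr ?_⟩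
      rw [tr_mul, tr_compl]
  have hTc : ∀ C ∈ T, Cᶜ ∈ T := by
    rintro C ⟨s, rfl | rfl⟩
    · exact ⟨s, Or.inr rfl⟩
    · exact ⟨s, Or.inl (compl_compl _)⟩
  -- an element of the family without `1`
  obtain ⟨C₀, hC₀, h1C₀⟩ : ∃ C ∈ T, (1 : G) ∉ C := by
    obtain ⟨g, hg⟩ := hE₀.nec
    refine ⟨tr g⁻¹ E₀, ⟨g⁻¹, Or.inl rfl⟩, ?_⟩
    rw [mem_tr, inv_inv, mul_one]
    exact hg
  obtain ⟨e, he⟩ := (hT C₀ hC₀).ne
  have hfin : {C | C ∈ T ∧ e ∈ C ∧ (1 : G) ∉ C}.Finite :=
    (finite_sep hyp e 1).subset fun C hC => ⟨hT C hC.1, hC.2⟩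
  obtain ⟨E, hEmax⟩ := hfin.exists_maximal ⟨C₀, hC₀, he, h1C₀⟩
  obtain ⟨hET, heE, h1E⟩ := hEmax.1
  have hE := hT E hET
  have hmax : ∀ C ∈ T, (1 : G) ∉ C → E ⊆ C → C = E := by
    intro C hC h1 h2
    exact Set.Subset.antisymm (hEmax.2 ⟨hC, h2 heE, h1⟩ h2) h2
  have hst : ∀ t, tr t E = E → t = 1 := by
    intro t ht
    apply eq_one_of_tr htf hE.fin (hE.bd_nonempty hyp.gen)
    rw [← bd_tr, ht]
  have hst' : ∀ t, (tr t E)ᶜ ≠ E := by
    intro t ht
    have h2 : tr t (bd x E) = bd x E := by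
      rw [← bd_tr, ← bd_compl x (tr t E), ht]
    have h3 := eq_one_of_tr htf hE.fin (hE.bd_nonempty hyp.gen) h2
    rw [h3, tr_one] at ht
    have h4 : (1 : G) ∈ Eᶜ := h1E
    rw [ht] at h4
    exact h1E h4
  have hinj : Function.Injective (fun t => tr t E) := by
    intro s t hst2
    have h2 : tr (t⁻¹ * s) E = E := by
      have h3 : tr s E = tr t E := hst2
      rw [tr_mul, h3, ← tr_mul, inv_mul_cancel, tr_one]
    have h3 := hst _ h2
    exact (inv_mul_eq_one.1 h3).symm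
  have hnest : ∀ t, ¬ cross E (tr t E) := by
    intro t hc
    obtain ⟨s, hs | hs⟩ := hET
    · apply hn₀ (s⁻¹ * t * s)
      rw [← cross_tr (t := s), ← tr_mul, ← hs]
      have h2 : s * (s⁻¹ * t * s) = t * s := by group
      rw [h2, tr_mul, ← hs]
      exact hc
    · apply hn₀ (s⁻¹ * t * s)
      rw [← cross_tr (t := s), ← tr_mul]
      have h2 : s * (s⁻¹ * t * s) = t * s := by group
      rw [h2, tr_mul]
      have h3 : tr s E₀ = Eᶜ := by rw [hs, compl_compl]
      rw [h3, tr_compl]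
      have h4 := cross_compl_right hc
      have h5 := cross_compl_right (cross_comm h4)
      exact cross_comm h5
  refine ⟨E, ⟨h1E, hE.ne, hE.inv, fun t => nest_of_not_cross (hnest t), ?_, ?_, ?_⟩, hE⟩
  · intro t h1 h2
    exact hst t (hmax _ (hTtr E hET t) h1 h2)
  · intro t h1 h2
    apply hst' t
    apply hmax _ (hTc _ (hTtr E hET t))
    · exact fun h3 => h3 h1
    · intro y hy hy'
      have : y ∈ E ∩ tr t E := ⟨hy, hy'⟩
      rw [h2] at this
      exact this
  · intro g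
    have h1 : {t | (1 : G) ∈ tr t E ∧ g ∉ tr t E}.Finite :=
      Set.Finite.preimage hinj.injOn ((finite_sep hyp 1 g).subset
        (s := {F : Set G | Mn H x k F ∧ (1 : G) ∈ F ∧ g ∉ F}) fun F hF => hF) |>.subset
        fun t ht => ⟨hE.tr t, ht⟩
    have h2 : {t | g ∈ tr t E ∧ (1 : G) ∉ tr t E}.Finite :=
      Set.Finite.preimage hinj.injOn ((finite_sep hyp g 1).subset
        (s := {F : Set G | Mn H x k F ∧ g ∈ F ∧ (1 : G) ∉ F}) fun F hF => hF) |>.subset
        fun t ht => ⟨hE.tr t, ht⟩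
    refine (h1.union h2).subset ?_
    intro t ht
    have ht' : ¬ ((1 : G) ∈ tr t E ↔ g ∈ tr t E) := ht
    by_cases h3 : (1 : G) ∈ tr t E
    · left
      exact ⟨h3, fun h4 => ht' ⟨fun _ => h4, fun _ => h3⟩⟩
    · right
      refine ⟨?_, h3⟩
      by_contra h4
      exact ht' ⟨fun h5 => absurd h5 h3, fun h5 => absurd h5 h4⟩

end Pool.Agent.Lib.MP_11cd85_al.Cut
end

section

/-!
# The two vertex groups of a normalised cut
-/

set_option autoImplicit false

namespace Pool.Agent.Lib.MP_11cd85_al.Cut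

variable {G : Type} [Group G]

/-- The right stabiliser of a set. -/
def stab (E : Set G) : Subgroup G where
  carrier := {a | ∀ s, (s ∈ E ↔ s * a ∈ E)}
  one_mem' := fun s => by rw [mul_one]
  mul_mem' := fun {a b} ha hb s => by rw [ha s, hb (s * a), mul_assoc]
  inv_mem' := fun {a} ha s => by rw [ha (s * a⁻¹), inv_mul_cancel_right]

theorem mem_stab {E : Set G} {a : G} : a ∈ stab E ↔ ∀ s, (s ∈ E ↔ s * a ∈ E) := Iff.rfl

variable {H : Subgroup G} {E : Set G}

theorem le_stab (h : Nrm H E) : H ≤ stab E := fun a ha s => h.inv s a ha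

/-- Ping-pong, first group. -/
theorem disj_of_mem (h : Nrm H E) {a : G} (ha : a ∈ stab E) (ha1 : a ≠ 1) : E ∩ tr a E = ∅ := by
  have h1 : ∀ b ∈ stab E, (1 : G) ∉ tr b E := by
    intro b hb hb1
    rw [mem_tr, mul_one] at hb1
    have := (hb b⁻¹).1 hb1
    rw [inv_mul_cancel] at this
    exact h.one this
  rcases h.nest a with h2 | h2 | h2 | h2
  · exact absurd (h.m1 a (h1 a ha) h2) ha1
  · exfalso
    apply ha1
    apply inv_eq_one.1
    apply h.m1 a⁻¹ (h1 a⁻¹ ((stab E).inv_mem ha))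
    have h3 := tr_subset (t := a⁻¹) h2
    rwa [← tr_mul, inv_mul_cancel, tr_one] at h3
  · exact h2
  · exfalso
    have h3 : (1 : G) ∈ E ∪ tr a E := by rw [h2]; exact Set.mem_univ _
    rcases h3 with h3 | h3
    · exact h.one h3
    · exact h1 a ha h3

/-- Ping-pong, second group. -/
theorem cover_of_mem (h : Nrm H E) {b : G} (hb : b ∈ stab (insert 1 E)) (hb1 : b ≠ 1) :
    E ∪ tr b E = Set.univ := by
  have hbE : b ∈ E := by
    have h1 := (hb 1).1 (Set.mem_insert _ _)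
    rw [one_mul] at h1
    exact h1.resolve_left hb1
  have hbE' : (1 : G) ∈ tr b E := by
    have h1 : b⁻¹ * b ∈ insert (1 : G) E := by
      rw [inv_mul_cancel]
      exact Set.mem_insert _ _
    have h2 := (hb b⁻¹).2 h1
    rw [mem_tr, mul_one]
    exact h2.resolve_left (fun h3 => hb1 (inv_eq_one.1 h3))
  have hbn : b ∉ tr b E := by
    rw [mem_tr, inv_mul_cancel]
    exact h.one
  rcases h.nest b with h2 | h2 | h2 | h2
  · exact absurd (h2 hbE) hbn
  · exact absurd (h2 hbE') h.one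
  · exact absurd (h.m2 b hbE' h2) id
  · exact h2

end Pool.Agent.Lib.MP_11cd85_al.Cut
end

section

/-!
# Sides of the translates of a normalised cut
-/

set_option autoImplicit false

namespace Pool.Agent.Lib.MP_11cd85_al.Cut

variable {G : Type} [Group G]

/-- The translates of `E` that separate `1` and `g`. -/
def sep (E : Set G) (g : G) : Set G := {s | ¬ ((1 : G) ∈ tr s E ↔ g ∈ tr s E)}

/-- The side of the translate `s E` that contains `g`. -/
def sd (E : Set G) (g s : G) : Set G := {y | (y ∈ tr s E ↔ g ∈ tr s E)}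

/-- Nested sets. -/
def nst (X Y : Set G) : Prop := X ⊆ Y ∨ Y ⊆ X ∨ X ∩ Y = ∅ ∨ X ∪ Y = Set.univ

variable {H : Subgroup G} {E : Set G}

theorem mem_sd_self (g s : G) : g ∈ sd E g s := Iff.rfl

theorem one_mem_sd {g s : G} : (1 : G) ∈ sd E g s ↔ s ∉ sep E g := by
  unfold sd sep
  simp only [Set.mem_ofPred_eq, not_not]

theorem sd_eq_of_mem {g y s : G} (h : y ∈ sd E g s) : sd E y s = sd E g s := by
  ext z
  have h' : y ∈ tr s E ↔ g ∈ tr s E := h
  change (z ∈ tr s E ↔ y ∈ tr s E) ↔ (z ∈ tr s E ↔ g ∈ tr s E)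
  rw [h']

theorem sd_pos {g s : G} (h : g ∈ tr s E) : sd E g s = tr s E := by
  ext z
  change (z ∈ tr s E ↔ g ∈ tr s E) ↔ z ∈ tr s E
  tauto

theorem sd_neg {g s : G} (h : g ∉ tr s E) : sd E g s = (tr s E)ᶜ := by
  ext z
  change (z ∈ tr s E ↔ g ∈ tr s E) ↔ z ∉ tr s E
  tauto

omit [Group G] in
theorem nst_compl_right {X Y : Set G} (h : nst X Y) : nst X Yᶜ := by
  rcases h with h | h | h | h
  · right; right; left
    ext z
    simp only [Set.mem_inter_iff, Set.mem_compl_iff, Set.mem_empty_iff_false, iff_false]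
    exact fun h2 => h2.2 (h h2.1)
  · right; right; right
    ext z
    simp only [Set.mem_union, Set.mem_compl_iff, Set.mem_univ, iff_true]
    by_cases h2 : z ∈ Y
    · exact Or.inl (h h2)
    · exact Or.inr h2
  · left
    intro z hz hz'
    have : z ∈ X ∩ Y := ⟨hz, hz'⟩
    rw [h] at this
    exact this
  · right; left
    intro z hz
    have : z ∈ X ∪ Y := by rw [h]; exact Set.mem_univ z
    exact this.resolve_right hz

omit [Group G] in
theorem nst_symm {X Y : Set G} (h : nst X Y) : nst Y X := by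
  rcases h with h | h | h | h
  · exact Or.inr (Or.inl h)
  · exact Or.inl h
  · exact Or.inr (Or.inr (Or.inl (by rw [Set.inter_comm]; exact h)))
  · exact Or.inr (Or.inr (Or.inr (by rw [Set.union_comm]; exact h)))

theorem nst_tr (h : Nrm H E) (s t : G) : nst (tr s E) (tr t E) := by
  have h1 : tr t E = tr s (tr (s⁻¹ * t) E) := by
    rw [← tr_mul, mul_inv_cancel_left]
  rw [h1]
  rcases h.nest (s⁻¹ * t) with h2 | h2 | h2 | h2
  · exact Or.inl (tr_subset h2)
  · exact Or.inr (Or.inl (tr_subset h2))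
  · right; right; left
    rw [← tr_inter, h2]
    rfl
  · right; right; right
    rw [← tr_union, h2]
    rfl

theorem nst_sd (h : Nrm H E) (g g' s t : G) : nst (sd E g s) (sd E g' t) := by
  have h0 := nst_tr h s t
  by_cases h1 : g ∈ tr s E
  · rw [sd_pos h1]
    by_cases h2 : g' ∈ tr t E
    · rw [sd_pos h2]
      exact h0
    · rw [sd_neg h2]
      exact nst_compl_right h0
  · rw [sd_neg h1]
    by_cases h2 : g' ∈ tr t E
    · rw [sd_pos h2]
      exact nst_symm (nst_compl_right (nst_symm h0))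
    · rw [sd_neg h2]
      exact nst_compl_right (nst_symm (nst_compl_right (nst_symm h0)))

/-- Two sides with a common element that do not contain `1` are comparable. -/
theorem comparable {X Y : Set G} (h : nst X Y) {y : G} (hX : y ∈ X) (hY : y ∈ Y)
    (h1X : (1 : G) ∉ X) (h1Y : (1 : G) ∉ Y) : X ⊆ Y ∨ Y ⊆ X := by
  rcases h with h | h | h | h
  · exact Or.inl h
  · exact Or.inr h
  · exfalso
    have : y ∈ X ∩ Y := ⟨hX, hY⟩
    rw [h] at this
    exact this
  · exfalso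
    have : (1 : G) ∈ X ∪ Y := by rw [h]; exact Set.mem_univ _
    rcases this with h2 | h2
    · exact h1X h2
    · exact h1Y h2

theorem not_mem_tr_self (h : Nrm H E) (t : G) : t ∉ tr t E := by
  rw [mem_tr, inv_mul_cancel]
  exact h.one

/-- Maximality at `t`. -/
theorem eq_of_disj (h : Nrm H E) {s t : G} (hd : tr t E ∩ sd E t s = ∅) : s = t := by
  by_cases h1 : t ∈ tr s E
  · exfalso
    rw [sd_pos h1] at hd
    apply h.m2 (t⁻¹ * s)
    · rw [mem_tr] at h1 ⊢
      rwa [mul_inv_rev, inv_inv, mul_one]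
    · apply tr_injective t
      rw [tr_inter, ← tr_mul, mul_inv_cancel_left, hd]
      rfl
  · rw [sd_neg h1] at hd
    have h2 : tr t E ⊆ tr s E := by
      intro z hz
      by_contra hz'
      have : z ∈ tr t E ∩ (tr s E)ᶜ := ⟨hz, hz'⟩
      rw [hd] at this
      exact this
    have h3 : t⁻¹ * s = 1 := by
      apply h.m1
      · rw [mem_tr] at h1 ⊢
        rwa [mul_inv_rev, inv_inv, mul_one]
      · rw [← tr_subset_iff (t := t), ← tr_mul, mul_inv_cancel_left]
        exact h2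
    exact (inv_mul_eq_one.1 h3).symm

/-- Maximality at `1`. -/
theorem eq_one_of_subset (h : Nrm H E) {g s : G} (hs : s ∈ sep E g) (hd : E ⊆ sd E g s) :
    s = 1 := by
  apply eq_of_disj h
  rw [tr_one]
  ext z
  simp only [Set.mem_inter_iff, Set.mem_empty_iff_false, iff_false]
  rintro ⟨h1, h2⟩
  have h3 : z ∈ tr s E ↔ g ∈ tr s E := hd h1
  have h4 : z ∈ tr s E ↔ (1 : G) ∈ tr s E := h2
  exact hs (h4.symm.trans h3)

/-- A side of `s` that contains `t` and `g` but not `1`. -/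
theorem mem_sep_of_mem {g t s : G} (hs : s ∈ sep E t) (hg : g ∈ sd E t s) :
    s ∈ sep E g ∧ sd E t s = sd E g s := by
  have h1 := sd_eq_of_mem hg
  refine ⟨?_, h1.symm⟩
  by_contra h2
  rw [← one_mem_sd, h1, one_mem_sd] at h2
  exact h2 hs

end Pool.Agent.Lib.MP_11cd85_al.Cut
end

section

/-!
# Generation by the two vertex groups
-/

set_option autoImplicit false

namespace Pool.Agent.Lib.MP_11cd85_al.Cut

variable {G : Type} [Group G] {H : Subgroup G} {E : Set G}

/-- The balance condition: no homomorphism to `ℤ` given by the cut. -/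
def Bal (E : Set G) : Prop := ∀ g : G,
  {s | (1 : G) ∉ tr s E ∧ g ∈ tr s E}.ncard = {s | (1 : G) ∈ tr s E ∧ g ∉ tr s E}.ncard

theorem bal_contra (hb : Bal E) {g t : G} (hsub : sep E g ⊆ {t}) (ht : t ∈ sep E g) : False := by
  have h0 := hb g
  have h1 : ¬ ((1 : G) ∈ tr t E ↔ g ∈ tr t E) := ht
  by_cases h2 : (1 : G) ∈ tr t E
  · have h3 : g ∉ tr t E := fun h => h1 ⟨fun _ => h, fun _ => h2⟩
    have h4 : {s | (1 : G) ∈ tr s E ∧ g ∉ tr s E} = {t} := by
      ext s
      simp only [Set.mem_ofPred_eq, Set.mem_singleton_iff]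
      constructor
      · rintro ⟨h5, h6⟩
        exact hsub (show s ∈ sep E g from fun h7 => h6 (h7.1 h5))
      · rintro rfl
        exact ⟨h2, h3⟩
    have h5 : {s | (1 : G) ∉ tr s E ∧ g ∈ tr s E} = ∅ := by
      ext s
      simp only [Set.mem_ofPred_eq, Set.mem_empty_iff_false, iff_false]
      rintro ⟨h5, h6⟩
      have h7 : s = t := hsub (show s ∈ sep E g from fun h7 => h5 (h7.2 h6))
      rw [h7] at h5
      exact h5 h2
    rw [h4, h5, Set.ncard_empty, Set.ncard_singleton] at h0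
    exact absurd h0 (by norm_num)
  · have h3 : g ∈ tr t E := by
      by_contra h3
      exact h1 ⟨fun h => absurd h h2, fun h => absurd h h3⟩
    have h4 : {s | (1 : G) ∉ tr s E ∧ g ∈ tr s E} = {t} := by
      ext s
      simp only [Set.mem_ofPred_eq, Set.mem_singleton_iff]
      constructor
      · rintro ⟨h5, h6⟩
        exact hsub (show s ∈ sep E g from fun h7 => h5 (h7.2 h6))
      · rintro rfl
        exact ⟨h2, h3⟩
    have h5 : {s | (1 : G) ∈ tr s E ∧ g ∉ tr s E} = ∅ := by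
      ext s
      simp only [Set.mem_ofPred_eq, Set.mem_empty_iff_false, iff_false]
      rintro ⟨h5, h6⟩
      have h7 : s = t := hsub (show s ∈ sep E g from fun h7 => h6 (h7.1 h5))
      rw [h7] at h5
      exact h2 h5
    rw [h4, h5, Set.ncard_empty, Set.ncard_singleton] at h0
    exact absurd h0 (by norm_num)

theorem mem_stab_of_sep {t : G} (h : sep E t = ∅) : t ∈ stab E := by
  intro s
  have h1 : s⁻¹ ∉ sep E t := by rw [h]; exact Set.notMem_empty _
  have h2 : (1 : G) ∈ tr s⁻¹ E ↔ t ∈ tr s⁻¹ E := not_not.1 h1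
  rwa [mem_tr, mem_tr, inv_inv, mul_one] at h2

theorem sep_finite (h : Nrm H E) (g : G) : (sep E g).Finite := h.fin g

/-- The translates that separate `t` and `g`. -/
theorem sep_inv_mul (t g : G) :
    sep E (t⁻¹ * g) = tr t⁻¹ {s | ¬ (t ∈ tr s E ↔ g ∈ tr s E)} := by
  ext s
  rw [mem_tr, inv_inv]
  unfold sep
  simp only [Set.mem_ofPred_eq]
  rw [tr_mul]
  simp only [mem_tr, inv_mul_cancel, mul_one]

/-- First step. -/
theorem step_one (h : Nrm H E) (hb : Bal E) {g : G} (hg : (sep E g).Nonempty) :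
    ∃ t ∈ stab E, t⁻¹ * g ∈ E ∧ (sep E (t⁻¹ * g)).ncard = (sep E g).ncard := by
  obtain ⟨t, htmax⟩ := (sep_finite h g).exists_maximalFor (sd E g) _ hg
  have ht : t ∈ sep E g := htmax.1
  have hmax : ∀ s ∈ sep E g, sd E g t ⊆ sd E g s → sd E g s ⊆ sd E g t := fun s hs h1 =>
    htmax.2 hs h1
  -- the claim
  have hclaim : sep E t ⊆ {t} := by
    intro s hs
    have h1X : (1 : G) ∉ sd E t s := fun h2 => (one_mem_sd.1 h2) hs
    have h1Y : (1 : G) ∉ sd E g t := fun h2 => (one_mem_sd.1 h2) ht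
    have htX : t ∈ sd E t s := mem_sd_self t s
    have hkey : sd E g t ⊆ sd E t s → sd E t s ⊆ sd E g t := by
      intro h2
      obtain ⟨h3, h4⟩ := mem_sep_of_mem hs (h2 (mem_sd_self g t))
      rw [h4] at h2 ⊢
      exact hmax s h3 h2
    by_cases hgt : g ∈ tr t E
    · have hY : sd E g t = tr t E := sd_pos hgt
      have htY : t ∉ sd E g t := by rw [hY]; exact not_mem_tr_self h t
      rcases nst_sd h g t t s with h2 | h2 | h2 | h2
      · exact absurd (hkey h2 htX) htY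
      · exact absurd (h2 htX) htY
      · rw [hY] at h2
        exact eq_of_disj h h2
      · exfalso
        have : (1 : G) ∈ sd E g t ∪ sd E t s := by rw [h2]; exact Set.mem_univ _
        rcases this with h3 | h3
        · exact h1Y h3
        · exact h1X h3
    · have hY : sd E g t = (tr t E)ᶜ := sd_neg hgt
      have htY : t ∈ sd E g t := by rw [hY]; exact not_mem_tr_self h t
      have h5 : sd E t s ⊆ sd E g t := by
        rcases comparable (nst_sd h g t t s) htY htX h1Y h1X with h2 | h2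
        · exact hkey h2
        · exact h2
      apply eq_of_disj h
      ext z
      simp only [Set.mem_inter_iff, Set.mem_empty_iff_false, iff_false]
      rintro ⟨h6, h7⟩
      have h8 := h5 h7
      rw [hY] at h8
      exact h8 h6
  -- `g ∈ t E`
  have hgt : g ∈ tr t E := by
    by_contra hgt
    apply bal_contra hb hclaim
    intro h2
    have h3 : (1 : G) ∉ tr t E := fun h4 => not_mem_tr_self h t (h2.1 h4)
    exact ht ⟨fun h4 => absurd h4 h3, fun h4 => absurd h4 hgt⟩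
  have h1t : (1 : G) ∉ tr t E := fun h2 => ht ⟨fun _ => hgt, fun _ => h2⟩
  have hsep : sep E t = ∅ := by
    ext s
    simp only [Set.mem_empty_iff_false, iff_false]
    intro hs
    have h2 : s = t := hclaim hs
    rw [h2] at hs
    exact hs ⟨fun h3 => absurd h3 h1t, fun h3 => absurd h3 (not_mem_tr_self h t)⟩
  refine ⟨t, mem_stab_of_sep hsep, hgt, ?_⟩
  rw [sep_inv_mul, ncard_tr]
  congr 1
  ext s
  have h2 : s ∉ sep E t := by rw [hsep]; exact Set.notMem_empty _
  have h3 : (1 : G) ∈ tr s E ↔ t ∈ tr s E := not_not.1 h2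
  unfold sep
  simp only [Set.mem_ofPred_eq]
  rw [h3]

/-- Second step. -/
theorem step_two (h : Nrm H E) (hb : Bal E) {g : G} (hg : g ∈ E) :
    ∃ b ∈ stab (insert 1 E), (sep E (b⁻¹ * g)).ncard < (sep E g).ncard := by
  have h1sep : (1 : G) ∈ sep E g := by
    intro h2
    rw [tr_one] at h2
    exact h.one (h2.2 hg)
  have hne : (sep E g \ {1}).Nonempty := by
    by_contra hcon
    rw [Set.not_nonempty_iff_eq_empty, Set.sdiff_eq_empty] at hcon
    exact bal_contra hb hcon h1sep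
  obtain ⟨t, htmax⟩ := ((sep_finite h g).sdiff (t := {1})).exists_maximalFor (sd E g) _ hne
  have ht : t ∈ sep E g := htmax.1.1
  have ht1 : t ≠ 1 := htmax.1.2
  have hmax : ∀ s ∈ sep E g, s ≠ 1 → sd E g t ⊆ sd E g s → sd E g s ⊆ sd E g t :=
    fun s hs hs1 h1 => htmax.2 ⟨hs, hs1⟩ h1
  have h1Y : (1 : G) ∉ sd E g t := fun h2 => (one_mem_sd.1 h2) ht
  have hE : E = sd E g 1 := by rw [sd_pos (by rw [tr_one]; exact hg), tr_one]
  have hYE : sd E g t ⊆ E := by
    have h2 := nst_sd h g g t 1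
    rw [← hE] at h2
    rcases comparable h2 (mem_sd_self g t) hg h1Y h.one with h3 | h3
    · exact h3
    · exact absurd (eq_one_of_subset h ht h3) ht1
  have htE : t ∈ E := by
    by_cases hgt : g ∈ tr t E
    · by_contra htE
      rw [sd_pos hgt] at hYE
      apply ht1
      have h3 : (1 : G) = t := by
        apply eq_of_disj h
        rw [sd_neg (by rw [tr_one]; exact htE), tr_one]
        ext z
        simp only [Set.mem_inter_iff, Set.mem_compl_iff, Set.mem_empty_iff_false, iff_false]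
        exact fun h4 => h4.2 (hYE h4.1)
      exact h3.symm
    · apply hYE
      rw [sd_neg hgt]
      exact not_mem_tr_self h t
  have hE' : E = sd E t 1 := by rw [sd_pos (by rw [tr_one]; exact htE), tr_one]
  -- sides of further separating translates are contained in `E`
  have hX : ∀ s ∈ sep E t, s ≠ 1 → sd E t s ⊆ E := by
    intro s hs hs1
    have h1X : (1 : G) ∉ sd E t s := fun h2 => (one_mem_sd.1 h2) hs
    have h2 := nst_sd h t t s 1
    rw [← hE'] at h2
    rcases comparable h2 (mem_sd_self t s) htE h1X h.one with h3 | h3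
    · exact h3
    · exact absurd (eq_one_of_subset h hs h3) hs1
  have hkey : ∀ s ∈ sep E t, s ≠ 1 → sd E g t ⊆ sd E t s → sd E t s ⊆ sd E g t := by
    intro s hs hs1 h2
    obtain ⟨h3, h4⟩ := mem_sep_of_mem hs (h2 (mem_sd_self g t))
    rw [h4] at h2 ⊢
    exact hmax s h3 hs1 h2
  have h1sept : (1 : G) ∈ sep E t := by
    intro h2
    rw [tr_one] at h2
    exact h.one (h2.2 htE)
  by_cases hgt : g ∈ tr t E
  · exfalso
    have hY : sd E g t = tr t E := sd_pos hgt
    have h1t : (1 : G) ∉ tr t E := fun h2 => ht ⟨fun _ => hgt, fun _ => h2⟩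
    apply bal_contra hb _ h1sept
    intro s hs
    by_contra hs1
    have hs1' : s ≠ 1 := hs1
    have h1X : (1 : G) ∉ sd E t s := fun h2 => (one_mem_sd.1 h2) hs
    have htX : t ∈ sd E t s := mem_sd_self t s
    have htY : t ∉ sd E g t := by rw [hY]; exact not_mem_tr_self h t
    rcases nst_sd h g t t s with h2 | h2 | h2 | h2
    · exact htY (hkey s hs hs1' h2 htX)
    · exact htY (h2 htX)
    · rw [hY] at h2
      have h3 : s = t := eq_of_disj h h2
      rw [h3] at hs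
      exact hs ⟨fun h4 => absurd h4 h1t, fun h4 => absurd h4 (not_mem_tr_self h t)⟩
    · have : (1 : G) ∈ sd E g t ∪ sd E t s := by rw [h2]; exact Set.mem_univ _
      rcases this with h3 | h3
      · exact h1Y h3
      · exact h1X h3
  · have hY : sd E g t = (tr t E)ᶜ := sd_neg hgt
    have h1t : (1 : G) ∈ tr t E := by
      by_contra h2
      exact ht ⟨fun h3 => absurd h3 h2, fun h3 => absurd h3 hgt⟩
    have htY : t ∈ sd E g t := by rw [hY]; exact not_mem_tr_self h t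
    have hst : ∀ s, s ≠ 1 → s ≠ t → ((1 : G) ∈ tr s E ↔ t ∈ tr s E) := by
      intro s hs1 hst
      by_contra hs
      have hs' : s ∈ sep E t := hs
      apply hst
      have h1X : (1 : G) ∉ sd E t s := fun h2 => (one_mem_sd.1 h2) hs'
      have htX : t ∈ sd E t s := mem_sd_self t s
      have h5 : sd E t s ⊆ sd E g t := by
        rcases comparable (nst_sd h g t t s) htY htX h1Y h1X with h2 | h2
        · exact hkey s hs' hs1 h2
        · exact h2
      apply eq_of_disj h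
      ext z
      simp only [Set.mem_inter_iff, Set.mem_empty_iff_false, iff_false]
      rintro ⟨h6, h7⟩
      have h8 := h5 h7
      rw [hY] at h8
      exact h8 h6
    refine ⟨t, ?_, ?_⟩
    · intro s
      have h2 : s ∈ E ↔ (1 : G) ∈ tr s⁻¹ E := by rw [mem_tr, inv_inv, mul_one]
      have h3 : s * t ∈ E ↔ t ∈ tr s⁻¹ E := by rw [mem_tr, inv_inv]
      rw [Set.mem_insert_iff, Set.mem_insert_iff, h2, h3]
      by_cases h4 : s⁻¹ = 1
      · have h5 : s = 1 := inv_eq_one.1 h4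
        rw [h4, tr_one]
        simp only [h5, true_or, one_mul, true_iff]
        exact Or.inr htE
      · by_cases h5 : s⁻¹ = t
        · have h6 : s * t = 1 := by rw [← h5, mul_inv_cancel]
          rw [h5, h6]
          simp only [h1t, or_true, true_or]
        · have h6 := hst s⁻¹ h4 h5
          have h7 : s ≠ 1 := fun h8 => h4 (by rw [h8, inv_one])
          have h8 : s * t ≠ 1 := fun h9 => h5 (inv_eq_of_mul_eq_one_right h9)
          simp only [h7, h8, false_or]
          exact h6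
    · rw [sep_inv_mul, ncard_tr]
      apply Set.ncard_lt_ncard _ (sep_finite h g)
      constructor
      · intro s hs
        have hs' : ¬ (t ∈ tr s E ↔ g ∈ tr s E) := hs
        have h2 : s ≠ 1 := by
          rintro rfl
          rw [tr_one] at hs'
          exact hs' ⟨fun _ => hg, fun _ => htE⟩
        have h3 : s ≠ t := by
          rintro rfl
          exact hs' ⟨fun h4 => absurd h4 (not_mem_tr_self h s), fun h4 => absurd h4 hgt⟩
        intro h4
        exact hs' ((hst s h2 h3).symm.trans h4)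
      · intro h2
        have h3 : ¬ (t ∈ tr 1 E ↔ g ∈ tr 1 E) := h2 h1sep
        rw [tr_one] at h3
        exact h3 ⟨fun _ => hg, fun _ => htE⟩

/-- The two vertex groups generate `G`. -/
theorem mem_sup (h : Nrm H E) (hb : Bal E) : ∀ (n : ℕ) (g : G), (sep E g).ncard ≤ n →
    g ∈ stab E ⊔ stab (insert 1 E) := by
  intro n
  induction n with
  | zero =>
    intro g hg
    have h1 : sep E g = ∅ := (Set.ncard_eq_zero (sep_finite h g)).1 (Nat.le_zero.1 hg)
    exact Subgroup.mem_sup_left (mem_stab_of_sep h1)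
  | succ n ih =>
    intro g hg
    by_cases h1 : sep E g = ∅
    · exact Subgroup.mem_sup_left (mem_stab_of_sep h1)
    · obtain ⟨t, ht, hE, hcard⟩ := step_one h hb (Set.nonempty_iff_ne_empty.2 h1)
      obtain ⟨b, hb', hlt⟩ := step_two h hb hE
      have h2 : b⁻¹ * (t⁻¹ * g) ∈ stab E ⊔ stab (insert 1 E) := ih _ (by omega)
      have h3 : g = t * (b * (b⁻¹ * (t⁻¹ * g))) := by group
      rw [h3]
      exact Subgroup.mul_mem _ (Subgroup.mem_sup_left ht)
        (Subgroup.mul_mem _ (Subgroup.mem_sup_right hb') h2)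

theorem sup_eq_top (h : Nrm H E) (hb : Bal E) : stab E ⊔ stab (insert 1 E) = ⊤ := by
  rw [eq_top_iff]
  intro g _
  exact mem_sup h hb _ g le_rfl

end Pool.Agent.Lib.MP_11cd85_al.Cut
end

section

/-!
# The homomorphism to `ℤ` given by a cut
-/

set_option autoImplicit false

namespace Pool.Agent.Lib.MP_11cd85_al.Cut

variable {G : Type} [Group G] {H : Subgroup G} {E : Set G}

open scoped Classical in
/-- The indicator of `y ∈ s E`. -/
noncomputable def ind (E : Set G) (y s : G) : ℤ := if y ∈ tr s E then 1 else 0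

theorem ind_congr {y z s t : G} (h : y ∈ tr s E ↔ z ∈ tr t E) : ind E y s = ind E z t := by
  unfold ind
  by_cases h1 : y ∈ tr s E
  · rw [if_pos h1, if_pos (h.1 h1)]
  · rw [if_neg h1, if_neg (fun h2 => h1 (h.2 h2))]

/-- The signed count. -/
noncomputable def phi (E : Set G) (g s : G) : ℤ := ind E g s - ind E 1 s

theorem support_phi (g : G) : Function.support (phi E g) ⊆ sep E g := by
  intro s hs
  rw [Function.mem_support] at hs
  intro h
  apply hs
  unfold phi ind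
  by_cases h1 : (1 : G) ∈ tr s E
  · rw [if_pos h1, if_pos (h.1 h1), sub_self]
  · rw [if_neg h1, if_neg (fun h2 => h1 (h.2 h2)), sub_self]

theorem phi_mul (g h s : G) : phi E (g * h) s = phi E h (g⁻¹ * s) + phi E g s := by
  have h1 : ind E (g * h) s = ind E h (g⁻¹ * s) :=
    ind_congr (by rw [mem_tr, mem_tr, mul_inv_rev, inv_inv, mul_assoc])
  have h2 : ind E g s = ind E 1 (g⁻¹ * s) :=
    ind_congr (by rw [mem_tr, mem_tr, mul_inv_rev, inv_inv, mul_one])
  unfold phi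
  rw [h1, h2]
  ring

/-- The homomorphism. -/
noncomputable def chi (h : Nrm H E) : G →* Multiplicative ℤ where
  toFun g := Multiplicative.ofAdd (∑ᶠ s, phi E g s)
  map_one' := by
    have : ∀ s, phi E (1 : G) s = 0 := fun s => sub_self _
    simp only [this, finsum_zero]
    rfl
  map_mul' a b := by
    rw [← ofAdd_add]
    congr 1
    have h1 : ∀ s, phi E (a * b) s = phi E b (a⁻¹ * s) + phi E a s := phi_mul a b
    simp only [h1]
    have hf1 : (Function.support fun s => phi E b (a⁻¹ * s)).Finite := by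
      have h2 : (Function.support (phi E b)).Finite := (sep_finite h b).subset (support_phi b)
      have h3 := h2.preimage (f := fun s => a⁻¹ * s) (mul_right_injective a⁻¹).injOn
      exact h3
    have hf2 : (Function.support fun s => phi E a s).Finite :=
      (sep_finite h a).subset (support_phi a)
    rw [finsum_add_distrib hf1 hf2, add_comm]
    congr 1
    exact finsum_comp_equiv (Equiv.mulLeft a⁻¹) (f := phi E b)

theorem chi_of_mem (h : Nrm H E) {a : G} (ha : a ∈ H) : chi h a = 1 := by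
  have : ∀ s, phi E a s = 0 := by
    intro s
    unfold phi
    have h1 : (1 : G) ∈ tr s E ↔ a ∈ tr s E := by
      have := inv_tr h.inv s 1 a ha
      rwa [one_mul] at this
    rw [ind_congr h1, sub_self]
  change Multiplicative.ofAdd (∑ᶠ s, phi E a s) = 1
  simp only [this, finsum_zero]
  rfl

theorem bal_of_chi (h : Nrm H E) (hchi : chi h = 1) : Bal E := by
  classical
  intro g
  have h0 : ∑ᶠ s, phi E g s = 0 := congrArg Multiplicative.toAdd (DFunLike.congr_fun hchi g)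
  have hfin := sep_finite h g
  have h1 : ∑ᶠ s, phi E g s = ∑ s ∈ hfin.toFinset, phi E g s :=
    finsum_eq_sum_of_support_subset _ (by
      rw [Set.Finite.coe_toFinset]
      exact support_phi g)
  rw [h1] at h0
  have h2 : ∀ s ∈ hfin.toFinset, phi E g s =
      (if (1 : G) ∉ tr s E ∧ g ∈ tr s E then 1 else 0) -
        (if (1 : G) ∈ tr s E ∧ g ∉ tr s E then 1 else 0) := by
    intro s _
    unfold phi ind
    by_cases h3 : (1 : G) ∈ tr s E <;> by_cases h4 : g ∈ tr s E <;> simp [h3, h4]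
  rw [Finset.sum_congr rfl h2, Finset.sum_sub_distrib, Finset.sum_boole, Finset.sum_boole,
    sub_eq_zero] at h0
  have h3 : {s | (1 : G) ∉ tr s E ∧ g ∈ tr s E} =
      ↑(hfin.toFinset.filter fun s => (1 : G) ∉ tr s E ∧ g ∈ tr s E) := by
    ext s
    simp only [Set.mem_ofPred_eq, Finset.coe_filter, Set.Finite.mem_toFinset]
    refine ⟨fun h5 => ⟨fun h6 => h5.1 (h6.2 h5.2), h5⟩, fun h5 => h5.2⟩
  have h4 : {s | (1 : G) ∈ tr s E ∧ g ∉ tr s E} =
      ↑(hfin.toFinset.filter fun s => (1 : G) ∈ tr s E ∧ g ∉ tr s E) := by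
    ext s
    simp only [Set.mem_ofPred_eq, Finset.coe_filter, Set.Finite.mem_toFinset]
    refine ⟨fun h5 => ⟨fun h6 => h5.2 (h6.1 h5.1), h5⟩, fun h5 => h5.2⟩
  rw [h3, h4, Set.ncard_coe_finset, Set.ncard_coe_finset]
  exact_mod_cast h0

end Pool.Agent.Lib.MP_11cd85_al.Cut
end
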