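import Mathlib

section

/-!
# Zero divisors of a group ring and unique products in quotients of subgroups
-/

set_option autoImplicit false

namespace Pool.Agent.Lib.MP_11cd85_al.UPR

open MonoidAlgebra

variable {R : Type} [CommRing R] {G : Type} [Group G]

/-- The element with the coefficients `c a`, `a ∈ A`. -/
noncomputable def el (c : G → R) (A : Finset G) : MonoidAlgebra R G := ∑ a ∈ A, single a (c a)

theorem coeff_mul_el (u : MonoidAlgebra R G) (c : G → R) (A : Finset G) (x : G) :
    (u * el c A).coeff x = ∑ a ∈ A, u.coeff (x * a⁻¹) * c a := by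
  unfold el
  rw [Finset.mul_sum, coeff_sum, Finsupp.finsetSum_apply]
  exact Finset.sum_congr rfl fun a _ => coeff_mul_single_apply _ _ _ _

/-- The subgroup generated by the `a⁻¹ b`, `a, b ∈ A`. -/
def diff (A : Finset G) : Subgroup G :=
  Subgroup.closure {g | ∃ a ∈ A, ∃ b ∈ A, g = a⁻¹ * b}

theorem mem_diff {A : Finset G} {a b : G} (ha : a ∈ A) (hb : b ∈ A) : a⁻¹ * b ∈ diff A :=
  Subgroup.subset_closure ⟨a, ha, b, hb, rfl⟩

/-- `a₀⁻¹ a` as an element of `diff A`. -/
def dd {A : Finset G} (a₀ a : A) : diff A := ⟨(a₀ : G)⁻¹ * a, mem_diff a₀.2 a.2⟩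

/-- The normalised element, in the group ring of `diff A`. -/
noncomputable def nel (c : G → R) (A : Finset G) (a₀ : A) : MonoidAlgebra R (diff A) :=
  ∑ a : A, single (dd a₀ a) (c a)

theorem coeff_mul_nel (c : G → R) (A : Finset G) (a₀ : A) (v : MonoidAlgebra R (diff A))
    (d : diff A) : (v * nel c A a₀).coeff d = ∑ a : A, v.coeff (d * (dd a₀ a)⁻¹) * c a := by
  unfold nel
  rw [Finset.mul_sum, coeff_sum, Finsupp.finsetSum_apply]
  exact Finset.sum_congr rfl fun a _ => coeff_mul_single_apply _ _ _ _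

/-- An annihilator in `R[G]` gives an annihilator in `R[diff A]`. -/
theorem descend (c : G → R) (A : Finset G) (a₀ : A) (u : MonoidAlgebra R G) (hu : u ≠ 0)
    (h : u * el c A = 0) : ∃ v : MonoidAlgebra R (diff A), v ≠ 0 ∧ v * nel c A a₀ = 0 := by
  obtain ⟨g, hg⟩ : ∃ g, u.coeff g ≠ 0 := by
    by_contra hc
    push Not at hc
    exact hu (MonoidAlgebra.ext (Finsupp.ext hc))
  have hf : Function.Injective (fun d : diff A => g * a₀ * (d : G) * (a₀ : G)⁻¹) := by
    intro d d' hd
    exact Subtype.ext (mul_left_cancel (mul_right_cancel hd))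
  refine ⟨comapDomain _ hf u, ?_, ?_⟩
  · intro h0
    apply hg
    have h1 : (comapDomain _ hf u).coeff 1 = 0 := by rw [h0]; rfl
    rw [coeff_comapDomain, Finsupp.comapDomain_apply] at h1
    simpa using h1
  · apply MonoidAlgebra.ext
    apply Finsupp.ext
    intro d
    rw [coeff_mul_nel]
    have h1 : (u * el c A).coeff (g * a₀ * d) = 0 := by rw [h]; rfl
    rw [coeff_mul_el] at h1
    rw [coeff_zero, Finsupp.zero_apply, ← h1,
      ← Finset.sum_coe_sort A (fun a => u.coeff (g * a₀ * d * a⁻¹) * c a)]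
    apply Finset.sum_congr rfl
    intro a _
    rw [coeff_comapDomain, Finsupp.comapDomain_apply]
    congr 2
    simp only [dd, Subgroup.coe_mul, Subgroup.coe_inv]
    group

/-- An annihilator of the part over `J ⊆ A` in `R[diff A]` gives an annihilator in `R[G]`. -/
theorem lift (c : G → R) (A : Finset G) (a₀ : A) (v : MonoidAlgebra R (diff A)) (hv : v ≠ 0)
    (J : Finset A)
    (h : ∀ d : diff A, ∑ a ∈ J, v.coeff (d * (dd a₀ a)⁻¹) * c a = 0) :
    ∃ u : MonoidAlgebra R G, u ≠ 0 ∧ u * el c (J.map (Function.Embedding.subtype _)) = 0 := by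
  have hf : Function.Injective (fun d : diff A => (d : G) * (a₀ : G)⁻¹) := by
    intro d d' hd
    exact Subtype.ext (mul_right_cancel hd)
  refine ⟨mapDomain (fun d : diff A => (d : G) * (a₀ : G)⁻¹) v, ?_, ?_⟩
  · intro h0
    apply hv
    apply mapDomain_injective hf
    rw [h0]
    exact (mapDomain_zero _).symm
  · apply MonoidAlgebra.ext
    apply Finsupp.ext
    intro x
    rw [coeff_mul_el, Finset.sum_map]
    by_cases hx : x ∈ diff A
    · have h1 := h ⟨x, hx⟩
      rw [coeff_zero, Finsupp.zero_apply, ← h1]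
      apply Finset.sum_congr rfl
      intro a _
      congr 1
      have h2 : x * (a : G)⁻¹ = (fun d : diff A => (d : G) * (a₀ : G)⁻¹)
          ((⟨x, hx⟩ : diff A) * (dd a₀ a)⁻¹) := by
        simp only [dd, Subgroup.coe_mul, Subgroup.coe_inv]
        group
      change (Finsupp.mapDomain _ v.coeff) (x * (a : G)⁻¹) = _
      rw [h2, Finsupp.mapDomain_apply hf]
    · rw [coeff_zero, Finsupp.zero_apply]
      apply Finset.sum_eq_zero
      intro a _
      have h2 : x * (a : G)⁻¹ ∉ Set.range (fun d : diff A => (d : G) * (a₀ : G)⁻¹) := by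
        rintro ⟨d, hd⟩
        apply hx
        have h3 : x = (d : G) * ((a₀ : G)⁻¹ * a) := by
          have : x * (a : G)⁻¹ * a = (d : G) * (a₀ : G)⁻¹ * a := by rw [← hd]
          rw [inv_mul_cancel_right] at this
          rw [this]
          group
        rw [h3]
        exact (diff A).mul_mem d.2 (mem_diff a₀.2 a.2)
      change (Finsupp.mapDomain _ v.coeff) (x * (a : G)⁻¹) * c a = 0
      rw [Finsupp.mapDomain_of_notMem_range _ _ h2, zero_mul]

/-- One step of the reduction: a unique product in a non-trivial quotient gives an annihilator of a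
proper part. -/
theorem step [IsDomain R] (c : G → R) (A : Finset G) (a₀ : A) (v : MonoidAlgebra R (diff A))
    (hv0 : v * nel c A a₀ = 0) {Λ : Type} [Group Λ] (π : diff A →* Λ)
    (hπ : π ≠ 1) (d₀ : diff A) (hd₀ : d₀ ∈ v.coeff.support) (a₁ : A)
    (huniq : ∀ d ∈ v.coeff.support, ∀ a : A, π (d * dd a₀ a) = π (d₀ * dd a₀ a₁) → π d = π d₀) :
    ∃ J : Finset G, J.Nonempty ∧ J ⊂ A ∧ ∃ u : MonoidAlgebra R G, u ≠ 0 ∧ u * el c J = 0 := by
  classical
  -- the fibres
  let J : Finset A := Finset.univ.filter fun a => π (dd a₀ a) = π (dd a₀ a₁)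
  let w : MonoidAlgebra R (diff A) := ofCoeff (v.coeff.filter fun d => π d = π d₀)
  have hw : ∀ d, w.coeff d = if π d = π d₀ then v.coeff d else 0 := fun d => by
    change (v.coeff.filter fun d => π d = π d₀) d = _
    rw [Finsupp.filter_apply]
  have hw0 : w ≠ 0 := by
    intro h0
    have h1 : w.coeff d₀ = 0 := by rw [h0]; rfl
    rw [hw, if_pos rfl] at h1
    exact (Finsupp.mem_support_iff.1 hd₀) h1
  have hJ : ∀ d : diff A, ∑ a ∈ J, w.coeff (d * (dd a₀ a)⁻¹) * c a = 0 := by
    intro d
    by_cases hd : π d = π d₀ * π (dd a₀ a₁)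
    · have h1 : (v * nel c A a₀).coeff d = 0 := by rw [hv0]; rfl
      rw [coeff_mul_nel] at h1
      rw [← h1]
      apply Finset.sum_subset_zero_on_sdiff (Finset.subset_univ J)
      · intro a ha
        rw [Finset.mem_sdiff, Finset.mem_filter] at ha
        have ha' : π (dd a₀ a) ≠ π (dd a₀ a₁) := fun h => ha.2 ⟨Finset.mem_univ _, h⟩
        by_cases h2 : v.coeff (d * (dd a₀ a)⁻¹) = 0
        · rw [h2, zero_mul]
        · exfalso
          have h3 : π (d * (dd a₀ a)⁻¹) = π d₀ := by
            apply huniq _ (Finsupp.mem_support_iff.2 h2) a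
            rw [inv_mul_cancel_right, hd, map_mul]
          apply ha'
          rw [map_mul, map_inv, hd, mul_inv_eq_iff_eq_mul] at h3
          exact (mul_left_cancel h3).symm
      · intro a ha
        rw [Finset.mem_filter] at ha
        rw [hw, if_pos]
        rw [map_mul, map_inv, ha.2, hd, mul_inv_cancel_right]
    · apply Finset.sum_eq_zero
      intro a ha
      rw [Finset.mem_filter] at ha
      rw [hw, if_neg, zero_mul]
      intro h2
      apply hd
      rw [map_mul, map_inv, ha.2, mul_inv_eq_iff_eq_mul] at h2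
      exact h2
  obtain ⟨u', hu', hu'0⟩ := lift c A a₀ w hw0 J hJ
  refine ⟨J.map (Function.Embedding.subtype _), ?_, ?_, u', hu', hu'0⟩
  · exact Finset.Nonempty.map ⟨a₁, Finset.mem_filter.2 ⟨Finset.mem_univ _, rfl⟩⟩
  · rw [Finset.ssubset_iff_subset_ne]
    constructor
    · intro x hx
      obtain ⟨a, _, rfl⟩ := Finset.mem_map.1 hx
      exact a.2
    · intro hJA
      apply hπ
      have h1 : ∀ a : A, π (dd a₀ a) = π (dd a₀ a₁) := by
        intro a
        have h2 : (a : G) ∈ J.map (Function.Embedding.subtype _) := by rw [hJA]; exact a.2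
        obtain ⟨a', ha', h3⟩ := Finset.mem_map.1 h2
        have h4 : a' = a := Subtype.ext h3
        rw [h4] at ha'
        exact (Finset.mem_filter.1 ha').2
      have h2 : dd a₀ a₀ = 1 := by
        apply Subtype.ext
        simp [dd]
      have h3 : ∀ a : A, π (dd a₀ a) = 1 := by
        intro a
        rw [h1 a, ← h1 a₀, h2, map_one]
      have h4 : ∀ (x : G) (hx : x ∈ diff A), π ⟨x, hx⟩ = 1 := by
        intro x hx
        induction hx using Subgroup.closure_induction with
        | mem x hx' =>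
          obtain ⟨a, ha, b, hb, rfl⟩ := id hx'
          have h5 : (⟨a⁻¹ * b, mem_diff ha hb⟩ : diff A) =
              (dd a₀ ⟨a, ha⟩)⁻¹ * dd a₀ ⟨b, hb⟩ := by
            apply Subtype.ext
            simp only [dd, Subgroup.coe_mul, Subgroup.coe_inv]
            group
          exact (congrArg π h5).trans (by rw [map_mul, map_inv, h3, h3, inv_one, one_mul])
        | one => exact map_one π
        | mul x y hx hy ihx ihy =>
          have : (⟨x * y, (diff A).mul_mem hx hy⟩ : diff A) = ⟨x, hx⟩ * ⟨y, hy⟩ := rfl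
          rw [this, map_mul, ihx, ihy, one_mul]
        | inv x hx ih =>
          have : (⟨x⁻¹, (diff A).inv_mem hx⟩ : diff A) = ⟨x, hx⟩⁻¹ := rfl
          rw [this, map_inv, ih, inv_one]
      ext x
      exact h4 x x.2

end Pool.Agent.Lib.MP_11cd85_al.UPR
end

section

/-!
# Minimal supports of zero divisors
-/

set_option autoImplicit false

namespace Pool.Agent.Lib.MP_11cd85_al.UPR

open MonoidAlgebra

variable {R : Type} [CommRing R] {G : Type} [Group G]

theorem up_pair {D : Type} [Group D] (q : D) (hq : ∀ k : ℕ, 0 < k → q ^ k ≠ 1) (B : Finset D)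
    (hB : B.Nonempty) : ∃ b ∈ B, ∀ b' ∈ B, ∀ s' : D, (s' = 1 ∨ s' = q) → b' * s' = b * q →
      b' = b := by
  obtain ⟨b, hb, hbq⟩ : ∃ b ∈ B, b * q ∉ B := by
    by_contra hc
    push Not at hc
    obtain ⟨b, hb⟩ := hB
    have h2 : ∀ k : ℕ, b * q ^ k ∈ B := by
      intro k
      induction k with
      | zero => simpa using hb
      | succ k ih =>
        rw [pow_succ, ← mul_assoc]
        exact hc _ ih
    have h3 : Function.Injective (fun k : ℕ => b * q ^ k) := by
      intro k l hkl
      have h4 : q ^ k = q ^ l := mul_left_cancel hkl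
      by_contra hne
      rcases lt_or_gt_of_ne hne with hlt | hlt
      · apply hq (l - k) (Nat.sub_pos_of_lt hlt)
        rw [pow_sub _ hlt.le, h4, mul_inv_cancel]
      · apply hq (k - l) (Nat.sub_pos_of_lt hlt)
        rw [pow_sub _ hlt.le, h4, mul_inv_cancel]
    exact (Set.infinite_of_injective_forall_mem h3 h2) (Finset.finite_toSet B)
  refine ⟨b, hb, ?_⟩
  intro b' hb' s' hs' he
  rcases hs' with rfl | rfl
  · rw [mul_one] at he
    exact absurd (he ▸ hb') hbq
  · exact mul_right_cancel he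

theorem exists_min [IsDomain R] (htf : ∀ (g : G) (k : ℕ), 0 < k → g ^ k = 1 → g = 1)
    (c : G → R) (A : Finset G) (hA : A.Nonempty) (hc : ∀ a ∈ A, c a ≠ 0)
    (h : ∃ u : MonoidAlgebra R G, u ≠ 0 ∧ u * el c A = 0) :
    ∃ A' : Finset G, A' ⊆ A ∧ 3 ≤ A'.card ∧ ∀ a₀ : A',
      (∃ v : MonoidAlgebra R (diff A'), v ≠ 0 ∧ v * nel c A' a₀ = 0) ∧
      ∀ v : MonoidAlgebra R (diff A'), v * nel c A' a₀ = 0 →
        ∀ (Λ : Type) [Group Λ] (π : diff A' →* Λ), π ≠ 1 →
          ∀ d ∈ v.coeff.support, ∀ a : A', ∃ d' ∈ v.coeff.support, ∃ a' : A',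
            π (d' * dd a₀ a') = π (d * dd a₀ a) ∧ π d' ≠ π d := by
  classical
  induction A using Finset.strongInduction with
  | H A ih =>
    by_cases hJ : ∃ J : Finset G, J.Nonempty ∧ J ⊂ A ∧
        ∃ u : MonoidAlgebra R G, u ≠ 0 ∧ u * el c J = 0
    · obtain ⟨J, hJ1, hJ2, hJ3⟩ := hJ
      obtain ⟨A', h1, h2⟩ := ih J hJ2 hJ1 (fun a ha => hc a (hJ2.1 ha)) hJ3
      exact ⟨A', h1.trans hJ2.1, h2⟩
    · obtain ⟨u, hu, hu0⟩ := h
      have hmain : ∀ a₀ : A, ∀ v : MonoidAlgebra R (diff A), v * nel c A a₀ = 0 →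
          ∀ (Λ : Type) [Group Λ] (π : diff A →* Λ), π ≠ 1 →
            ∀ d ∈ v.coeff.support, ∀ a : A, ∃ d' ∈ v.coeff.support, ∃ a' : A,
              π (d' * dd a₀ a') = π (d * dd a₀ a) ∧ π d' ≠ π d := by
        intro a₀ v hv Λ _ π hπ d hd a
        by_contra hcon
        apply hJ
        apply step c A a₀ v hv π hπ d hd a
        intro d' hd' a' he
        by_contra hne
        exact hcon ⟨d', hd', a', he, hne⟩
      refine ⟨A, subset_rfl, ?_, fun a₀ => ⟨descend c A a₀ u hu hu0, hmain a₀⟩⟩
      by_contra hcard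
      push Not at hcard
      obtain ⟨a, ha⟩ := hA
      have hpos : 0 < A.card := Finset.card_pos.2 ⟨a, ha⟩
      rcases (by omega : A.card = 1 ∨ A.card = 2) with h1 | h1
      · obtain ⟨b, hb⟩ := Finset.card_eq_one.1 h1
        apply hu
        apply MonoidAlgebra.ext
        apply Finsupp.ext
        intro g
        have h2 : (u * el c A).coeff (g * b) = 0 := by rw [hu0]; rfl
        rw [coeff_mul_el, hb, Finset.sum_singleton, mul_inv_cancel_right] at h2
        exact (mul_eq_zero.1 h2).resolve_right (hc b (by rw [hb]; exact Finset.mem_singleton_self b))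
      · obtain ⟨x, y, hxy, hA2⟩ := Finset.card_eq_two.1 h1
        have hx : x ∈ A := by rw [hA2]; simp
        have hy : y ∈ A := by rw [hA2]; simp
        have hq : ∀ k : ℕ, 0 < k → (dd (⟨x, hx⟩ : A) ⟨y, hy⟩) ^ k ≠ 1 := by
          intro k hk h3
          have h4 : (x⁻¹ * y) ^ k = 1 := congrArg Subtype.val h3
          have h5 := htf _ k hk h4
          apply hxy
          rw [inv_mul_eq_one] at h5
          exact h5
        obtain ⟨v, hv, hv0⟩ := descend c A ⟨x, hx⟩ u hu hu0
        have hne : v.coeff.support.Nonempty := by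
          rw [Finsupp.support_nonempty_iff]
          intro h0
          exact hv (coeff_eq_zero.1 h0)
        obtain ⟨b, hb, hb'⟩ := up_pair _ hq _ hne
        have hid : (MonoidHom.id (diff A)) ≠ 1 := by
          intro h6
          have h8 : dd (⟨x, hx⟩ : A) ⟨y, hy⟩ = 1 := DFunLike.congr_fun h6 _
          apply hq 1 one_pos
          rw [pow_one, h8]
        obtain ⟨d', hd', a', he, hne'⟩ := hmain ⟨x, hx⟩ v hv0 _ (MonoidHom.id _) hid b hb ⟨y, hy⟩
        apply hne'
        apply hb' d' hd' _ _ he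
        obtain ⟨a', ha'⟩ := a'
        have h7 : a' = x ∨ a' = y := by
          rw [hA2] at ha'
          simpa using ha'
        rcases h7 with rfl | rfl
        · left
          apply Subtype.ext
          simp [dd]
        · right
          rfl

/-- No non-trivial homomorphism to a group with unique products. -/
theorem eq_one_of_uniqueProds {Λ : Type} [Group Λ] [UniqueProds Λ] {A : Finset G} (a₀ : A)
    (v : MonoidAlgebra R (diff A)) (hv : v ≠ 0) (π : diff A →* Λ)
    (h : π ≠ 1 → ∀ d ∈ v.coeff.support, ∀ a : A, ∃ d' ∈ v.coeff.support, ∃ a' : A,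
      π (d' * dd a₀ a') = π (d * dd a₀ a) ∧ π d' ≠ π d) : π = 1 := by
  classical
  by_contra hπ
  have h1 : (v.coeff.support.image π).Nonempty := by
    apply Finset.Nonempty.image
    rw [Finsupp.support_nonempty_iff]
    intro h0
    exact hv (coeff_eq_zero.1 h0)
  have h2 : ((Finset.univ : Finset A).image fun a => π (dd a₀ a)).Nonempty :=
    ⟨_, Finset.mem_image_of_mem _ (Finset.mem_univ a₀)⟩
  obtain ⟨b, hb, s, hs, hu⟩ := UniqueProds.uniqueMul_of_nonempty h1 h2
  obtain ⟨d, hd, rfl⟩ := Finset.mem_image.1 hb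
  obtain ⟨a, _, rfl⟩ := Finset.mem_image.1 hs
  obtain ⟨d', hd', a', he, hne⟩ := h hπ d hd a
  apply hne
  rw [map_mul, map_mul] at he
  exact (hu (Finset.mem_image_of_mem _ hd') (Finset.mem_image_of_mem _ (Finset.mem_univ a')) he).1

end Pool.Agent.Lib.MP_11cd85_al.UPR
end
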